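import Pool.Agent.GBL.Lfr

/-!
# GBL Max: the field of the quotients of logarithmic pluricanonical forms

As `GB/Max` (same proof), with `RegL` instead of `RegF` and `Lfr.pole_of_regL`.
-/

set_option autoImplicit false

open MvPolynomial
open Pool.Agent.H23 (dualDer)
open Pool.Agent.H23.Fano (PrimeDivisorOver Form)
open Pool.Agent.H17LG.Variety (IsLogGeneralType)

namespace Pool.Agent.GBL

variable {K : Type} [Field K] [Algebra ℂ K] {k : ℕ} {Bd : PrimeDivisorOver K k → Prop}

theorem regL_one (z : Fin k → K) : RegL Bd z 0 1 := by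
  intro E b _
  rw [pow_zero, mul_one, E.ord.map_one]

private lemma max_regL_mul {z : Fin k → K} {l l' : ℕ} {f f' : K} (h : RegL Bd z l f) (h' : RegL Bd z l' f') : RegL Bd z (l + l') (f * f') := by
  intro E b hb
  have h1 : f * f' * jacL z b ^ (l + l') = (f * jacL z b ^ l) * (f' * jacL z b ^ l') := by
    rw [pow_add]; ring
  rw [h1, E.ord.map_mul]
  exact add_nonneg (h E b hb) (h' E b hb)

/-- the subfield of the constants of a derivation -/
private def cst (D : Derivation ℂ K K) : IntermediateField ℂ K where
  carrier := {f | D f = 0}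
  mul_mem' := by
    intro a b ha hb
    simp only [Set.mem_ofPred_eq] at ha hb ⊢
    rw [Derivation.leibniz, ha, hb, smul_zero, smul_zero, add_zero]
  add_mem' := by
    intro a b ha hb
    simp only [Set.mem_ofPred_eq] at ha hb ⊢
    rw [map_add, ha, hb, add_zero]
  algebraMap_mem' := by
    intro c
    simp only [Set.mem_ofPred_eq]
    exact D.map_algebraMap c
  inv_mem' := by
    intro a ha
    simp only [Set.mem_ofPred_eq] at ha ⊢
    rw [Derivation.leibniz_inv, ha, smul_zero]

private lemma mem_cst {D : Derivation ℂ K K} {f : K} : f ∈ cst D ↔ D f = 0 := Iff.rfl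

/-- a derivation kills the elements which are algebraic over its field of constants -/
private lemma max_der_alg {D : Derivation ℂ K K} {x : K} (hx : IsAlgebraic (cst D) x) : D x = 0 := by
  let D' : Derivation (cst D) K K := Derivation.mk' (R := cst D) (M := K)
    { toFun := fun f => D f
      map_add' := fun a b => map_add D a b
      map_smul' := by
        intro c f
        rw [RingHom.id_apply, Algebra.smul_def, Algebra.smul_def, Derivation.leibniz]
        have : D (algebraMap (cst D) K c) = 0 := c.2
        rw [this, smul_zero, add_zero, smul_eq_mul] }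
    (fun a b => D.leibniz a b)
  have hD' : ∀ f, D' f = D f := fun f => rfl
  have : CharZero (cst D) := charZero_of_injective_algebraMap (algebraMap ℂ (cst D)).injective
  have hint : IsIntegral (cst D) x := hx.isIntegral
  have hsep : IsSeparable (cst D) x := (minpoly.irreducible hint).separable
  have h1 := Derivation.map_aeval (minpoly (cst D) x) x (D := D')
  rw [minpoly.aeval, map_zero, hD', smul_eq_mul] at h1
  rcases mul_eq_zero.1 h1.symm with h2 | h2
  · exact absurd h2 (hsep.aeval_derivative_ne_zero (minpoly.aeval _ _))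
  · exact h2

private lemma max_form_ne {z : Fin k → K} (hz : IsTranscendenceBasis ℂ z) : (Form.mk 1 z : Form K k) ≠ 0 := by
  obtain ⟨b, hb⟩ := Pool.Agent.H23.exists_basis_kaehler hz
  intro h0
  have h1 : (1 : K) • (exteriorPower.ιMulti K k fun i => KaehlerDifferential.D ℂ K (z i)) = 0 := h0
  have h2 := Pool.Agent.H23.fc_self b
  simp only [hb] at h2
  rw [one_smul] at h1
  rw [h1, map_zero] at h2
  exact zero_ne_one h2

/-- there are `κ + 1` forms of the same weight with algebraically independent quotients -/
private def MaxP (Bd : PrimeDivisorOver K k → Prop) (z : Fin k → K) (κ : ℕ) : Prop :=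
  ∃ (l : ℕ) (s : Fin (κ + 1) → K), s 0 ≠ 0 ∧ (∀ i, RegL Bd z l (s i)) ∧ AlgebraicIndependent ℂ (fun i : Fin κ => s i.succ / s 0)

private lemma maxP_zero (Bd : PrimeDivisorOver K k → Prop) (z : Fin k → K) : MaxP Bd z 0 :=
  ⟨0, fun _ => 1, one_ne_zero, fun _ => regL_one z, algebraicIndependent_empty_type⟩

private lemma maxP_le {z : Fin k → K} (hz : IsTranscendenceBasis ℂ z) {κ : ℕ} (h : MaxP Bd z κ) : κ ≤ k := by
  obtain ⟨l, s, -, -, h⟩ := h
  have h1 := h.cardinalMk_le_trdeg
  rw [← hz.cardinalMk_eq_trdeg] at h1
  simpa using h1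

theorem exists_maxL [Algebra.EssFiniteType ℂ K] (hk : 1 ≤ k) {z : Fin k → K} (hz : IsTranscendenceBasis ℂ z)
    (hn : ¬ IsLogGeneralType (K := K) (k := k) Bd) {M : ℕ} {u : K} (hM : 1 ≤ M) (hu : RegL Bd z M u) (hu0 : u ≠ 0) :
    ∃ (κ l : ℕ) (s : Fin (κ + 1) → K), κ < k ∧ s 0 ≠ 0 ∧ (∀ i, RegL Bd z l (s i)) ∧
      AlgebraicIndependent ℂ (fun i : Fin κ => s i.succ / s 0) ∧
      ∀ (M' : ℕ) (u' v' : K), RegL Bd z M' u' → RegL Bd z M' v' → v' ≠ 0 →
        ∀ D : Derivation ℂ K K, (∀ i : Fin κ, D (s i.succ / s 0) = 0) → D (u' / v') = 0 := by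
  classical
  set κ := Nat.findGreatest (MaxP Bd z) k with hκ
  have hP : MaxP Bd z κ := Nat.findGreatest_spec (P := MaxP Bd z) (m := 0) (Nat.zero_le _) (maxP_zero Bd z)
  have hmax : ∀ κ', κ < κ' → ¬ MaxP Bd z κ' := by
    intro κ' h h'
    exact Nat.findGreatest_is_greatest h (maxP_le hz h') h'
  have hle : κ ≤ k := maxP_le hz hP
  obtain ⟨l, s, hs0, hs, hind⟩ := hP
  refine ⟨κ, l, s, lt_of_le_of_ne hle ?_, hs0, hs, hind, ?_⟩
  · intro hκk
    apply hn
    refine ⟨M + l, by omega, Form.mk 1 z, max_form_ne hz, κ, fun i => u * s i, mul_ne_zero hu0 hs0, ?_, ?_⟩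
    · intro i E
      exact pole_of_regL hk hz (max_regL_mul hu (hs i)) E
    · have hb : IsTranscendenceBasis ℂ (fun i : Fin κ => s i.succ / s 0) := by
        apply hind.isTranscendenceBasis_of_trdeg_le_of_finite
        rw [← hz.cardinalMk_eq_trdeg]
        simp [hκk]
      have hq : ∀ i, u * s i / (u * s 0) = s i / s 0 := fun i => mul_div_mul_left _ _ hu0
      have hsub : IntermediateField.adjoin ℂ (Set.range fun i : Fin κ => s i.succ / s 0) ≤
          IntermediateField.adjoin ℂ (Set.range fun i => u * s i / (u * s 0)) := by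
        rw [IntermediateField.adjoin_le_iff]
        rintro _ ⟨i, rfl⟩
        apply IntermediateField.subset_adjoin
        exact ⟨i.succ, hq _⟩
      refine ⟨fun x => ?_⟩
      obtain ⟨p, hp0, hp⟩ := (hb.isAlgebraic_field).isAlgebraic x
      letI : Algebra (IntermediateField.adjoin ℂ (Set.range fun i : Fin κ => s i.succ / s 0))
        (IntermediateField.adjoin ℂ (Set.range fun i => u * s i / (u * s 0))) := (IntermediateField.inclusion hsub).toRingHom.toAlgebra
      refine ⟨p.map (IntermediateField.inclusion hsub).toRingHom, ?_, ?_⟩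
      · rwa [Ne, Polynomial.map_eq_zero_iff (IntermediateField.inclusion hsub).toRingHom.injective]
      · rw [Polynomial.aeval_def, Polynomial.eval₂_map]
        exact hp
  · intro M' u' v' hu' hv' hv0 D hD
    by_cases halg : IsAlgebraic (Algebra.adjoin ℂ (Set.range fun i : Fin κ => s i.succ / s 0)) (u' / v')
    · apply max_der_alg
      obtain ⟨p, hp0, hp⟩ := halg
      have hsub : Algebra.adjoin ℂ (Set.range fun i : Fin κ => s i.succ / s 0) ≤ (cst D).toSubalgebra := by
        rw [Algebra.adjoin_le_iff]
        rintro _ ⟨i, rfl⟩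
        exact hD i
      refine ⟨p.map (Subalgebra.inclusion hsub).toRingHom, ?_, ?_⟩
      · rwa [Ne, Polynomial.map_eq_zero_iff]
        exact Subalgebra.inclusion_injective hsub
      · rw [Polynomial.aeval_def]
        erw [Polynomial.eval₂_map]
        exact hp
    · exfalso
      have h1 := (hind.option_iff_transcendental (u' / v')).2 halg
      apply hmax (κ + 1) (Nat.lt_succ_self _)
      let s' : Fin (κ + 1 + 1) → K := Fin.snoc (fun i => s i * v') (s 0 * u')
      have hs'0 : s' 0 = s 0 * v' := by
        have : (0 : Fin (κ + 1 + 1)) = Fin.castSucc 0 := rfl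
        rw [this]
        exact Fin.snoc_castSucc (α := fun _ => K) _ _ _
      refine ⟨l + M', s', ?_, ?_, ?_⟩
      · rw [hs'0]; exact mul_ne_zero hs0 hv0
      · intro i
        refine Fin.lastCases ?_ (fun j => ?_) i
        · have : s' (Fin.last _) = s 0 * u' := Fin.snoc_last (α := fun _ => K) _ _
          rw [this]
          exact max_regL_mul (hs 0) hu'
        · have : s' (Fin.castSucc j) = s j * v' := Fin.snoc_castSucc (α := fun _ => K) _ _ _
          rw [this]
          exact max_regL_mul (hs j) hv'
      · refine (algebraicIndependent_equiv' (finSuccEquivLast (n := κ)) (f := fun o : Option (Fin κ) => o.elim (u' / v') fun i => s i.succ / s 0) ?_).2 h1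
        funext i
        refine Fin.lastCases ?_ (fun j => ?_) i
        · rw [Function.comp_apply, finSuccEquivLast_last, Option.elim_none, hs'0]
          have : s' (Fin.last κ).succ = s 0 * u' := Fin.snoc_last (α := fun _ => K) _ _
          rw [this, mul_div_mul_left _ _ hs0]
        · rw [Function.comp_apply, finSuccEquivLast_castSucc, Option.elim_some, hs'0]
          have : s' (Fin.castSucc j).succ = s j.succ * v' := by
            rw [Fin.succ_castSucc]
            exact Fin.snoc_castSucc (α := fun _ => K) _ _ _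
          rw [this, mul_div_mul_right _ _ hv0]

end Pool.Agent.GBL
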