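import Pool.Agent.GB.Defs
import Pool.Agent.GL.Defs

/-!
# GBL Defs: Theorem B in the logarithmic case (see GB Defs, and the note with the plan)

`K` is the function field of a variety `Z` of dimension `k`, `Bd` the set of the prime divisors on the boundary.

* `LFr Bd E e`: the derivations `e` are a logarithmic frame at `E`: the dual derivations of coordinates at `E`, where the derivation of the uniformizer `t` is multiplied with `t` if `E` is on the boundary.
* `RegL Bd z l f`: the form `f (dz_1 ∧ … ∧ dz_k)^l` is regular along all prime divisors off `Bd` and has at most poles of order `l` along those in `Bd`.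
* `LDer Bd E e`: `e` is a logarithmic derivation at `E`.
* `SymFamL`: families of logarithmic symmetric differentials.
-/

set_option autoImplicit false

open MvPolynomial
open Pool.Agent.H23 (dualDer)
open Pool.Agent.H23.Fano (PrimeDivisorOver Form)
open Pool.Agent.H17GT (coordFun)
open Pool.Agent.H17LG.Variety (FunField ratio IsLogGeneralType)
open Pool.Agent.H13.SM (conTan cone)
open Pool.Agent.GL
open Pool.Agent.GB (Mon cdet sbs IsWeight Rel vol dph)

noncomputable section

namespace Pool.Agent.GBL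

/-- The logarithmic symmetric differentials `θ k` of degree `m` generate the homogeneous polynomials of degree `m` on the logarithmic tangent spaces. -/
def LogGenerated {N : ℕ} {P : Ideal (MvPolynomial (Fin (N + 1)) ℂ)} {B : Finset (Fin (N + 1))} {J m : ℕ} (θ : Fin J → LogSec P B m) : Prop :=
  ∀ x ∈ cone P, ∀ G : MvPolynomial (Fin (N + 1)) ℂ, G.IsHomogeneous m →
    (∀ (ξ : Fin (N + 1) → ℂ) (a : ℂ), eval (ξ + a • eul B x) G = eval ξ G) →
      ∃ c : Fin J → ℂ, ∀ ξ, act B x ξ ∈ conTan P x → eval ξ G = ∑ k, c k * (θ k).toFun x ξ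

section

variable {K : Type} [Field K] [Algebra ℂ K] {k d κ M : ℕ} {ι : Type}

/-- a logarithmic frame at `E` -/
def LFr (Bd : PrimeDivisorOver K k → Prop) (E : PrimeDivisorOver K k) (e : Fin k → Derivation ℂ K K) : Prop :=
  ∃ (g : Fin k → K) (b : Module.Basis (Fin k) K Ω[K⁄ℂ]), (∀ i, b i = KaehlerDifferential.D ℂ K (g i)) ∧ (∀ i, 0 ≤ E.ord (g i)) ∧
    (∀ i f, 0 ≤ E.ord f → 0 ≤ E.ord (dualDer b i f)) ∧
    ((¬ Bd E ∧ ∀ i, e i = dualDer b i) ∨ (Bd E ∧ ∃ i₀, E.ord (g i₀) = 1 ∧ ∀ i, e i = if i = i₀ then g i₀ • dualDer b i₀ else dualDer b i))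

/-- the determinant of the values of the frame on `z` -/
def jacL (z : Fin k → K) (e : Fin k → Derivation ℂ K K) : K := (Matrix.of fun i j => e i (z j)).det

/-- the form `f (dz_1 ∧ … ∧ dz_k)^l` is regular off the boundary, and has poles of order at most `l` on it -/
def RegL (Bd : PrimeDivisorOver K k → Prop) (z : Fin k → K) (l : ℕ) (f : K) : Prop :=
  ∀ (E : PrimeDivisorOver K k) (e : Fin k → Derivation ℂ K K), LFr Bd E e → 0 ≤ E.ord (f * jacL z e ^ l)

/-- `e` is a logarithmic derivation at `E` -/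
def LDer (Bd : PrimeDivisorOver K k → Prop) (E : PrimeDivisorOver K k) (e : Derivation ℂ K K) : Prop :=
  (∀ f, 0 ≤ E.ord f → 0 ≤ E.ord (e f)) ∧ (Bd E → ∀ f, f ≠ 0 → 0 ≤ E.ord (e f / f))

/-- A family of logarithmic symmetric differentials of degree `M`, see `GB.SymFam`. -/
structure SymFamL (K : Type) [Field K] [Algebra ℂ K] (k : ℕ) (Bd : PrimeDivisorOver K k → Prop) (d M : ℕ) (ι : Type) where
  /-- the polynomials -/
  fn : ι → (Fin d → Derivation ℂ K K) → MvPolynomial (Fin d) K
  hom : ∀ i e, (fn i e).IsHomogeneous M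
  subst : ∀ i e (g : Matrix (Fin d) (Fin d) K), fn i (fun r => ∑ s, g r s • e s) = sbs g (fn i e)
  reg : ∀ i e (E : PrimeDivisorOver K k), (∀ j, LDer Bd E (e j)) → ∀ α, 0 ≤ E.ord (coeff α (fn i e))

end

section

variable {N : ℕ} {P Q : Ideal (MvPolynomial (Fin (N + 1)) ℂ)} [Q.IsPrime] {B : Finset (Fin (N + 1))} {J m : ℕ} {θ : Fin J → LogSec P B m} {b : Fin (N + 1)} {d : ℕ}

/-- the prime divisor `E` lies over the hyperplane sections `x i = 0`, `i ∈ B` -/
def BdB (Q : Ideal (MvPolynomial (Fin (N + 1)) ℂ)) [Q.IsPrime] (B : Finset (Fin (N + 1))) {k : ℕ} (E : PrimeDivisorOver (FunField Q) k) : Prop :=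
  ∃ j, coordFun Q j ≠ 0 ∧ (∀ i, 0 ≤ E.ord (ratio Q i j)) ∧ ∃ i ∈ B, 0 < E.ord (ratio Q i j)

/-- the point `x` in the chart `x_a = 1`, and the logarithmic coordinates of the tangent vector `∑ X j e_j` -/
def tvL (Q : Ideal (MvPolynomial (Fin (N + 1)) ℂ)) [Q.IsPrime] (B : Finset (Fin (N + 1))) (a : Fin (N + 1)) (e : Fin d → Derivation ℂ (FunField Q) (FunField Q)) :
    Pool.Agent.GG.Ph N → MvPolynomial (Fin d) (FunField Q) :=
  Sum.elim (fun i => C (ratio Q i a)) fun i => ∑ j, X j * C (if i ∈ B then (ratio Q i a)⁻¹ * e j (ratio Q i a) else e j (ratio Q i a))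

/-- `θ k` at this tangent vector -/
def psiL (f : LFrame (m := fun _ => m) θ b) (Q : Ideal (MvPolynomial (Fin (N + 1)) ℂ)) [Q.IsPrime] (k : Fin J)
    (e : Fin d → Derivation ℂ (FunField Q) (FunField Q)) : MvPolynomial (Fin d) (FunField Q) :=
  aeval (tvL Q B b e) (f.A k)

end

end Pool.Agent.GBL
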