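import Pool.Agent.GB.Prd
import Pool.Agent.GBL.Defs

/-!
# GBL Prd: products

As `GB.exists_prdFam`.
-/

set_option autoImplicit false

open MvPolynomial
open Pool.Agent.H23.Fano (PrimeDivisorOver)

namespace Pool.Agent.GBL

theorem exists_prdFamL {K : Type} [Field K] [Algebra ℂ K] {k d M : ℕ} {Bd : PrimeDivisorOver K k → Prop} {ι : Type} (Ψ : SymFamL K k Bd d M ι) :
    ∃ Ψ₂ : SymFamL K k Bd d (M + M) (ι × ι), ∀ i e, Ψ₂.fn i e = Ψ.fn i.1 e * Ψ.fn i.2 e := by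
  refine ⟨⟨fun i e => Ψ.fn i.1 e * Ψ.fn i.2 e, fun i e => (Ψ.hom i.1 e).mul (Ψ.hom i.2 e), fun i e g => ?_, fun i e E he α => ?_⟩, fun i e => rfl⟩
  · rw [Ψ.subst, Ψ.subst, map_mul]
  · rw [coeff_mul]
    have h : ∀ s : Finset ((Fin d →₀ ℕ) × (Fin d →₀ ℕ)), 0 ≤ E.ord (∑ x ∈ s, coeff x.1 (Ψ.fn i.1 e) * coeff x.2 (Ψ.fn i.2 e)) := by
      intro s
      induction s using Finset.cons_induction with
      | empty => simp
      | cons a s ha ih =>
        rw [Finset.sum_cons]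
        refine le_trans (le_min ?_ ih) (E.ord.map_add _ _)
        rw [AddValuation.map_mul]
        exact add_nonneg (Ψ.reg i.1 e E he _) (Ψ.reg i.2 e E he _)
    exact h _

end Pool.Agent.GBL
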