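import Pool.Agent.GB.Trf
import Pool.Agent.H17R.Point
import Pool.Agent.GBL.Defs

/-!
# GBL Psi: the polynomials of logarithmic symmetric differentials in a frame

As `GB/Psi`, with the logarithmic coordinates `ξ_i = e (x_i) / x_i`, `i ∈ B`.
`eqsL`: the equations of the logarithmic tangent vectors (`act B x ξ ∈ conTan P x`, `x_b = 1`, `ξ_b = 0`) at `tvL`: `H17R.gen_eq_zero_iff` and a derivation applied to `Q_j (x) = 0`.
`hom`: `θ (x, s ξ) = s^m θ (x, ξ)` at complex points and `Trf.transfer`.  `subst`: composition of `aeval`s.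
`reg`: `H17R.exists_center`: a chart `c` with `E.ord (x_i / x_c) ≥ 0` for all `i`.  There the entries of `tvL P B c e` have `E.ord ≥ 0` for logarithmic derivations: if `BdB P B E` by `LDer`; if not then `E.ord (x_i / x_c) = 0` for
`i ∈ B` by the definition of `BdB` (with `j = c`).  With the polynomial `A` of `(θ i).regular c`: `aeval (tvL P B c e) A = psiL f P i e`, by `Trf.transfer` for the identity
`A (y x, lsc B y (ξ - ξ'_c eul B x)) = A_b (x, ξ)` on `x_b = 1`, `x_c y = 1`, where `ξ'_c = ξ_c` if `c ∈ B` and `y ξ_c` otherwise (`LogSec.scale`, `add_smul`).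
-/

set_option autoImplicit false

open MvPolynomial
open Pool.Agent.H17LG.Variety (FunField ratio)
open Pool.Agent.H62.FC (Homog)
open Pool.Agent.GL
open Pool.Agent.H13.SM (conTan cone)
open Pool.Agent.H17GT (coordFun)
open Pool.Agent.H23.Fano (PrimeDivisorOver)
open Pool.Agent.GB (transfer sbs)

namespace Pool.Agent.GBL

variable {N : ℕ} {P : Ideal (MvPolynomial (Fin (N + 1)) ℂ)} {B : Finset (Fin (N + 1))} {J m : ℕ} {θ : Fin J → LogSec P B m} {b : Fin (N + 1)}

/-! ## auxiliary facts -/

/-- the chain rule -/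
private theorem Psi_chain {σ : Type} [Fintype σ] {K : Type} [Field K] [Algebra ℂ K] (D : Derivation ℂ K K) (y : σ → K) (p : MvPolynomial σ ℂ) :
    D (aeval y p) = ∑ b, aeval y (pderiv b p) * D (y b) := by
  classical
  induction p using MvPolynomial.induction_on with
  | C a =>
    rw [aeval_C, D.map_algebraMap]
    refine (Finset.sum_eq_zero fun b _ => ?_).symm
    rw [pderiv_C, map_zero, zero_mul]
  | add p q hp hq =>
    rw [map_add, map_add, hp, hq, ← Finset.sum_add_distrib]
    refine Finset.sum_congr rfl fun b _ => ?_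
    rw [map_add, map_add, add_mul]
  | mul_X p i hp =>
    have h : ∀ b, aeval y (pderiv b (p * X i)) * D (y b) = (if b = i then aeval y p * D (y b) else 0) + y i * (aeval y (pderiv b p) * D (y b)) := by
      intro b
      rw [pderiv_mul, pderiv_X, map_add, map_mul, map_mul, aeval_X]
      by_cases hb : b = i
      · subst hb
        rw [if_pos rfl, Pi.single_eq_same, map_one]
        ring
      · rw [if_neg hb, Pi.single_eq_of_ne (Ne.symm hb), map_zero]
        ring
    rw [map_mul, aeval_X, D.leibniz, hp, Finset.sum_congr rfl fun b _ => h b, Finset.sum_add_distrib, Finset.sum_ite_eq' Finset.univ i,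
      if_pos (Finset.mem_univ _), ← Finset.mul_sum, smul_eq_mul, smul_eq_mul]

/-- the coefficients of the values of polynomials over `ℂ` -/
private theorem Psi_coeff {K : Type} [Field K] [Algebra ℂ K] {w d : ℕ} (E : PrimeDivisorOver K w) {σ : Type} (y : σ → MvPolynomial (Fin d) K)
    (hy : ∀ s α, 0 ≤ E.ord (coeff α (y s))) (p : MvPolynomial σ ℂ) : ∀ α, 0 ≤ E.ord (coeff α (aeval y p)) := by
  classical
  induction p using MvPolynomial.induction_on with
  | C a =>
    intro α
    rw [aeval_C, IsScalarTower.algebraMap_apply ℂ K (MvPolynomial (Fin d) K), algebraMap_eq, coeff_C]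
    split_ifs
    · exact E.ord_const a
    · rw [E.ord.map_zero]
      exact le_top
  | add p q hp hq =>
    intro α
    rw [map_add, coeff_add]
    exact (le_min (hp α) (hq α)).trans (E.ord.map_add _ _)
  | mul_X p i hp =>
    intro α
    rw [map_mul, aeval_X, coeff_mul]
    refine E.ord.map_le_sum fun β _ => ?_
    rw [E.ord.map_mul]
    exact add_nonneg (hp _) (hy _ _)

/-- the substitution `X ↦ c X` -/
private theorem Psi_scale {K : Type} [Field K] {d : ℕ} (c : K) (p : MvPolynomial (Fin d) K) (α : Fin d →₀ ℕ) :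
    coeff α (aeval (fun j => C c * X j : Fin d → MvPolynomial (Fin d) K) p) = c ^ (∑ j, α j) * coeff α p := by
  classical
  induction p using MvPolynomial.induction_on' with
  | monomial β r =>
    have h1 : aeval (fun j => C c * X j : Fin d → MvPolynomial (Fin d) K) (monomial β r) = monomial β (c ^ (∑ j, β j) * r) := by
      rw [aeval_monomial, algebraMap_eq, Finsupp.prod_fintype _ _ (fun i => pow_zero _), monomial_eq (s := β) (a := c ^ (∑ j, β j) * r),
        Finsupp.prod_fintype _ _ (fun i => pow_zero _)]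
      simp only [mul_pow, Finset.prod_mul_distrib]
      rw [Finset.prod_pow_eq_pow_sum, C_mul, C_pow]
      ring
    rw [h1, coeff_monomial, coeff_monomial]
    split_ifs with h
    · rw [h]
    · rw [mul_zero]
  | add p q hp hq => rw [map_add, coeff_add, coeff_add, hp, hq, mul_add]

private theorem Psi_hg {d : ℕ} {G : MvPolynomial (Fin (N + 1)) ℂ} (hG : G.IsHomogeneous d) (c : ℂ) (x : Fin (N + 1) → ℂ) :
    eval (c • x) G = c ^ d * eval x G := by
  rw [eval_eq', eval_eq', Finset.mul_sum]
  refine Finset.sum_congr rfl fun m hm => ?_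
  have h1 : ∏ i, (c • x) i ^ m i = c ^ d * ∏ i, x i ^ m i := by
    simp only [Pi.smul_apply, smul_eq_mul, mul_pow, Finset.prod_mul_distrib]
    rw [Finset.prod_pow_eq_pow_sum]
    have h2 := hG (mem_support_iff.1 hm)
    rw [Finsupp.weight_apply, Finsupp.sum_fintype _ _ (by simp)] at h2
    simp only [Pi.one_apply, smul_eq_mul, mul_one] at h2
    rw [h2]
  rw [h1]
  ring

private theorem Psi_conTan (hP : Homog P) (c : ℂ) (x : Fin (N + 1) → ℂ) : conTan P x ≤ conTan P (c • x) := by
  intro v hv G hG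
  have h1 : ∀ d, ∑ i, v i * eval (c • x) (pderiv i (homogeneousComponent d G)) = 0 := by
    intro d
    have h2 := hv _ (hP G hG d)
    have h4 : ∑ i, v i * eval (c • x) (pderiv i (homogeneousComponent d G)) =
        c ^ (d - 1) * ∑ i, v i * eval x (pderiv i (homogeneousComponent d G)) := by
      rw [Finset.mul_sum]
      refine Finset.sum_congr rfl fun i _ => ?_
      rw [Psi_hg ((homogeneousComponent_isHomogeneous d G).pderiv)]
      ring
    rw [h4, h2, mul_zero]
  have h5 : ∀ i, eval (c • x) (pderiv i G) = ∑ d ∈ Finset.range (G.totalDegree + 1),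
      eval (c • x) (pderiv i (homogeneousComponent d G)) := by
    intro i
    conv_lhs => rw [← sum_homogeneousComponent G]
    rw [map_sum, map_sum]
  simp only [h5, Finset.mul_sum]
  rw [Finset.sum_comm]
  exact Finset.sum_eq_zero fun d _ => h1 d

private theorem Psi_eval {σ τ : Type} (y : τ → ℂ) (g : σ → MvPolynomial τ ℂ) (p : MvPolynomial σ ℂ) :
    eval y (aeval g p) = eval (fun s => eval y (g s)) p := by
  induction p using MvPolynomial.induction_on with
  | C a => rw [aeval_C, algebraMap_eq, eval_C, eval_C]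
  | add p q hp hq => rw [map_add, map_add, map_add, hp, hq]
  | mul_X p i hp => rw [map_mul, map_mul, map_mul, hp, aeval_X, eval_X]


private theorem Psi_act_smul (x ξ : Fin (N + 1) → ℂ) (c : ℂ) : act B x (c • ξ) = c • act B x ξ := by
  funext i
  show (if i ∈ B then x i * (c * ξ i) else c * ξ i) = c * (if i ∈ B then x i * ξ i else ξ i)
  split_ifs
  · ring
  · rfl

private theorem Psi_act_lsc (x ξ : Fin (N + 1) → ℂ) (c : ℂ) : act B (c • x) (lsc B c ξ) = c • act B x ξ := by
  funext i
  show (if i ∈ B then c * x i * (if i ∈ B then ξ i else c * ξ i) else (if i ∈ B then ξ i else c * ξ i)) = c * (if i ∈ B then x i * ξ i else ξ i)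
  split_ifs
  · ring
  · rfl

private theorem Psi_act_eul (x ξ : Fin (N + 1) → ℂ) (a : ℂ) : act B x (ξ + a • eul B x) = act B x ξ + a • x := by
  funext i
  show (if i ∈ B then x i * (ξ i + a * (if i ∈ B then 1 else x i)) else ξ i + a * (if i ∈ B then 1 else x i)) = (if i ∈ B then x i * ξ i else ξ i) + a * x i
  split_ifs
  · ring
  · rfl

/-! ## the equations -/

private theorem Psi_inl [P.IsPrime] {a : Fin (N + 1)} {d : ℕ} (e : Fin d → Derivation ℂ (FunField P) (FunField P)) (q : MvPolynomial (Fin (N + 1)) ℂ) :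
    aeval (tvL P B a e) (rename Sum.inl q) = C (aeval (fun b => ratio P b a) q) := by
  rw [aeval_rename]
  induction q using MvPolynomial.induction_on with
  | C r => rw [aeval_C, aeval_C, IsScalarTower.algebraMap_apply ℂ (FunField P) (MvPolynomial (Fin d) (FunField P)), algebraMap_eq]
  | add p q hp hq => rw [map_add, map_add, map_add, hp, hq]
  | mul_X p i hp =>
    rw [map_mul, map_mul, map_mul, hp, aeval_X, aeval_X]
    rfl

private theorem Psi_zero [P.IsPrime] (hP : Homog P) {a : Fin (N + 1)} (ha : X a ∉ P) {q : MvPolynomial (Fin (N + 1)) ℂ} (hq : q ∈ P) :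
    aeval (fun b => ratio P b a) q = 0 := by
  have hc : coordFun P a ≠ 0 := Pool.Agent.H17R.coordFun_ne_zero_iff.2 ha
  rw [← sum_homogeneousComponent q, map_sum]
  refine Finset.sum_eq_zero fun n _ => ?_
  exact (Pool.Agent.H17R.gen_eq_zero_iff hc (homogeneousComponent_isHomogeneous n q)).2 (hP q hq n)

private theorem Psi_rne [P.IsPrime] {a i : Fin (N + 1)} (ha : X a ∉ P) (hi : X i ∉ P) : ratio P i a ≠ 0 := by
  intro h
  have h1 : coordFun P i / coordFun P a = 0 := congrArg Subtype.val h
  rcases div_eq_zero_iff.1 h1 with h2 | h2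
  · exact Pool.Agent.H17R.coordFun_ne_zero_iff.2 hi h2
  · exact Pool.Agent.H17R.coordFun_ne_zero_iff.2 ha h2

private theorem Psi_eqs [P.IsPrime] (hP : Homog P) (hB : ∀ i ∈ B, X i ∉ P) {a : Fin (N + 1)} (ha : X a ∉ P) {d : ℕ}
    (e : Fin d → Derivation ℂ (FunField P) (FunField P)) :
    tvL P B a e (Sum.inl a) = 1 ∧ tvL P B a e (Sum.inr a) = 0 ∧ (∀ q ∈ P, aeval (tvL P B a e) (rename Sum.inl q) = 0) ∧
      ∀ q ∈ P, aeval (tvL P B a e) (∑ i, rename Sum.inl (pderiv i q) * (if i ∈ B then X (Sum.inl i) * X (Sum.inr i) else X (Sum.inr i)) :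
        MvPolynomial (Pool.Agent.GG.Ph N) ℂ) = 0 := by
  have hc : coordFun P a ≠ 0 := Pool.Agent.H17R.coordFun_ne_zero_iff.2 ha
  have h1 : ratio P a a = 1 := Pool.Agent.H17R.ratio_self hc
  refine ⟨?_, ?_, fun q hq => ?_, fun q hq => ?_⟩
  · show C (ratio P a a) = _
    rw [h1, C_1]
  · show ∑ j, X j * C (if a ∈ B then (ratio P a a)⁻¹ * e j (ratio P a a) else e j (ratio P a a)) = _
    rw [h1]
    refine Finset.sum_eq_zero fun j _ => ?_
    rw [(e j).map_one_eq_zero, mul_zero, ite_self, C_0, mul_zero]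
  · rw [Psi_inl, Psi_zero hP ha hq, C_0]
  · rw [map_sum]
    have h2 : ∀ i, aeval (tvL P B a e) (rename Sum.inl (pderiv i q) * (if i ∈ B then X (Sum.inl i) * X (Sum.inr i) else X (Sum.inr i)) :
        MvPolynomial (Pool.Agent.GG.Ph N) ℂ) =
        ∑ j, X j * C (aeval (fun b => ratio P b a) (pderiv i q) * e j (ratio P i a)) := by
      intro i
      rw [map_mul, Psi_inl]
      by_cases hi : i ∈ B
      · rw [if_pos hi, map_mul, aeval_X, aeval_X]
        show C _ * (C (ratio P i a) * ∑ j, X j * C (if i ∈ B then (ratio P i a)⁻¹ * e j (ratio P i a) else e j (ratio P i a))) = _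
        have hr := Psi_rne ha (hB i hi)
        rw [Finset.mul_sum, Finset.mul_sum]
        refine Finset.sum_congr rfl fun j _ => ?_
        rw [if_pos hi]
        have h3 : C (ratio P i a) * (X j * C ((ratio P i a)⁻¹ * e j (ratio P i a))) = (X j * C (e j (ratio P i a)) : MvPolynomial (Fin d) (FunField P)) := by
          rw [C_mul]
          have h4 : (C (ratio P i a) * C (ratio P i a)⁻¹ : MvPolynomial (Fin d) (FunField P)) = 1 := by
            rw [← C_mul, mul_inv_cancel₀ hr, C_1]
          linear_combination (X j * C (e j (ratio P i a))) * h4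
        rw [h3, C_mul]
        ring
      · rw [if_neg hi, aeval_X]
        show C _ * ∑ j, X j * C (if i ∈ B then (ratio P i a)⁻¹ * e j (ratio P i a) else e j (ratio P i a)) = _
        rw [Finset.mul_sum]
        refine Finset.sum_congr rfl fun j _ => ?_
        rw [if_neg hi, C_mul]
        ring
    rw [Finset.sum_congr rfl fun b _ => h2 b, Finset.sum_comm]
    refine Finset.sum_eq_zero fun j _ => ?_
    rw [← Finset.mul_sum, ← map_sum, ← Psi_chain (e j) (fun b => ratio P b a) q, Psi_zero hP ha hq, map_zero, C_0, mul_zero]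

/-- the equations of the logarithmic tangent bundle at `tvL` -/
theorem tvL_eqs [P.IsPrime] (hP : Homog P) (hB : ∀ i ∈ B, X i ∉ P) {a : Fin (N + 1)} (ha : a ∈ B) {d : ℕ}
    (e : Fin d → Derivation ℂ (FunField P) (FunField P)) :
    tvL P B a e (Sum.inl a) = 1 ∧ tvL P B a e (Sum.inr a) = 0 ∧ (∀ q ∈ P, aeval (tvL P B a e) (rename Sum.inl q) = 0) ∧
      ∀ q ∈ P, aeval (tvL P B a e) (∑ i, rename Sum.inl (pderiv i q) * (if i ∈ B then X (Sum.inl i) * X (Sum.inr i) else X (Sum.inr i)) :
        MvPolynomial (Pool.Agent.GG.Ph N) ℂ) = 0 :=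
  Psi_eqs hP hB (hB a ha) e

/-- the equations of the logarithmic tangent vectors in the chart `x_c = 1` -/
private def Eqs (P : Ideal (MvPolynomial (Fin (N + 1)) ℂ)) (B : Finset (Fin (N + 1))) (c : Fin (N + 1)) : Set (MvPolynomial (Pool.Agent.GG.Ph N) ℂ) :=
  {s | s = X (Sum.inl c) - 1 ∨ (∃ q ∈ P, s = rename Sum.inl q) ∨
    ∃ q ∈ P, s = ∑ i, rename Sum.inl (pderiv i q) * (if i ∈ B then X (Sum.inl i) * X (Sum.inr i) else X (Sum.inr i))}

private theorem Eqs_complex {c : Fin (N + 1)} {y : Pool.Agent.GG.Ph N → ℂ} (hy : ∀ s ∈ Eqs P B c, eval y s = 0) :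
    (fun b => y (Sum.inl b)) ∈ cone P ∧ y (Sum.inl c) = 1 ∧ act B (fun b => y (Sum.inl b)) (fun b => y (Sum.inr b)) ∈ conTan P fun b => y (Sum.inl b) := by
  have h1 : y (Sum.inl c) = 1 := by
    have := hy _ (Or.inl rfl)
    rw [map_sub, eval_X, map_one] at this
    exact sub_eq_zero.1 this
  refine ⟨⟨fun h => ?_, fun q hq => ?_⟩, h1, fun q hq => ?_⟩
  · have := congrFun h c
    simp only [h1, Pi.zero_apply] at this
    exact one_ne_zero this
  · have := hy _ (Or.inr (Or.inl ⟨q, hq, rfl⟩))
    rw [eval_rename] at this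
    exact this
  · have := hy _ (Or.inr (Or.inr ⟨q, hq, rfl⟩))
    rw [map_sum] at this
    rw [← this]
    refine Finset.sum_congr rfl fun i _ => ?_
    rw [map_mul, eval_rename]
    show (if i ∈ B then y (Sum.inl i) * y (Sum.inr i) else y (Sum.inr i)) * _ = _
    rw [mul_comm]
    by_cases hi : i ∈ B
    · rw [if_pos hi, if_pos hi, map_mul, eval_X, eval_X]
      rfl
    · rw [if_neg hi, if_neg hi, eval_X]
      rfl

private theorem Eqs_tv [P.IsPrime] (hP : Homog P) (hB : ∀ i ∈ B, X i ∉ P) {c : Fin (N + 1)} (hc : X c ∉ P) {d : ℕ}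
    (e : Fin d → Derivation ℂ (FunField P) (FunField P)) : ∀ s ∈ Eqs P B c, aeval (tvL P B c e) s = 0 := by
  obtain ⟨h1, -, h2, h3⟩ := Psi_eqs hP hB hc e
  rintro s (rfl | ⟨q, hq, rfl⟩ | ⟨q, hq, rfl⟩)
  · rw [map_sub, aeval_X, h1, map_one, sub_self]
  · exact h2 q hq
  · exact h3 q hq

/-! ## homogeneity -/

private theorem Psi_hom [P.IsPrime] (hP : Homog P) (f : LFrame (m := fun _ => m) θ b) (hb : b ∈ B) (hB : ∀ i ∈ B, X i ∉ P)
    {d : ℕ} (i : Fin J) (e : Fin d → Derivation ℂ (FunField P) (FunField P)) : (psiL f P i e).IsHomogeneous m := by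
  set g : Pool.Agent.GG.Ph N → MvPolynomial (Pool.Agent.GG.Ph N) ℂ := Sum.elim (fun b => X (Sum.inl b)) (fun b => C 2 * X (Sum.inr b)) with hg
  have key : aeval (tvL P B b e) (aeval g (f.A i) - C (2 ^ m) * f.A i) = 0 := by
    refine transfer (S := Eqs P B b) (fun y hy => ?_) _ (Eqs_tv hP hB (hB b hb) e)
    obtain ⟨h1, h2, h3⟩ := Eqs_complex hy
    have h4 := f.hA i _ h1 h2 _ h3
    have h3' : act B (fun b => y (Sum.inl b)) ((2 : ℂ) • fun b => y (Sum.inr b)) ∈ conTan P fun b => y (Sum.inl b) := by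
      rw [Psi_act_smul]
      exact (conTan P _).smul_mem 2 h3
    have h5 := f.hA i _ h1 h2 _ h3'
    rw [(θ i).smul _ h1 _ h3 2, h4] at h5
    have h6 : eval y (aeval g (f.A i)) = eval (Pool.Agent.GG.pt (fun b => y (Sum.inl b)) ((2 : ℂ) • fun b => y (Sum.inr b))) (f.A i) := by
      rw [Psi_eval]
      congr 2
      funext s
      cases s with
      | inl b => rw [hg, Sum.elim_inl, eval_X]; rfl
      | inr b => rw [hg, Sum.elim_inr, map_mul, eval_C, eval_X]; rfl
    have h7 : eval y (f.A i) = eval (Pool.Agent.GG.pt (fun b => y (Sum.inl b)) fun b => y (Sum.inr b)) (f.A i) := by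
      congr 2
      funext s
      cases s <;> rfl
    rw [map_sub, map_mul, eval_C, h6, h7, ← h5, sub_self]
  have h2 : aeval (fun j => C 2 * X j : Fin d → MvPolynomial (Fin d) (FunField P)) (psiL f P i e) = C (2 ^ m) * psiL f P i e := by
    have h3 : aeval (tvL P B b e) (aeval g (f.A i)) =
        aeval (fun j => C 2 * X j : Fin d → MvPolynomial (Fin d) (FunField P)) (psiL f P i e) := by
      have h4 : ∀ p : MvPolynomial (Pool.Agent.GG.Ph N) ℂ, aeval (fun j => C 2 * X j : Fin d → MvPolynomial (Fin d) (FunField P)) (aeval (tvL P B b e) p) =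
          aeval (fun s => aeval (fun j => C 2 * X j : Fin d → MvPolynomial (Fin d) (FunField P)) (tvL P B b e s)) p := by
        intro p
        exact DFunLike.congr_fun (comp_aeval (tvL P B b e) ((aeval (fun j => C 2 * X j : Fin d → MvPolynomial (Fin d) (FunField P))).restrictScalars ℂ)) p
      unfold psiL
      rw [h4, ← AlgHom.comp_apply, comp_aeval]
      congr 2
      funext s
      cases s with
      | inl c =>
        rw [hg, Sum.elim_inl, aeval_X]
        show C (ratio P c b) = aeval _ (C (ratio P c b))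
        rw [aeval_C, algebraMap_eq]
      | inr c =>
        rw [hg, Sum.elim_inr, map_mul, aeval_C, aeval_X]
        show _ * ∑ j, X j * C (if c ∈ B then (ratio P c b)⁻¹ * e j (ratio P c b) else e j (ratio P c b)) =
          aeval _ (∑ j, X j * C (if c ∈ B then (ratio P c b)⁻¹ * e j (ratio P c b) else e j (ratio P c b)))
        rw [map_sum, Finset.mul_sum]
        refine Finset.sum_congr rfl fun j _ => ?_
        rw [map_mul, aeval_X, aeval_C, algebraMap_eq, IsScalarTower.algebraMap_apply ℂ (FunField P) (MvPolynomial (Fin d) (FunField P)), algebraMap_eq,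
          map_ofNat]
        ring
    rw [← h3]
    rw [map_sub, map_mul, sub_eq_zero] at key
    rw [key, aeval_C, IsScalarTower.algebraMap_apply ℂ (FunField P) (MvPolynomial (Fin d) (FunField P)), algebraMap_eq, map_pow, map_ofNat]
    rfl
  intro α hα
  have h3 := congrArg (coeff α) h2
  rw [Psi_scale, coeff_C_mul] at h3
  have h4 : (2 : FunField P) ^ (∑ j, α j) = 2 ^ m := mul_right_cancel₀ hα h3
  have h5 : CharZero (FunField P) := charZero_of_injective_algebraMap (algebraMap ℂ (FunField P)).injective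
  have h6 : ∑ j, α j = m := by
    have : (2 : ℕ) ^ (∑ j, α j) = 2 ^ m := by exact_mod_cast h4
    exact Nat.pow_right_injective le_rfl this
  rw [Finsupp.weight_apply, Finsupp.sum_fintype _ _ (by simp)]
  simpa using h6

/-! ## substitutions -/

private theorem Psi_subst [P.IsPrime] (f : LFrame (m := fun _ => m) θ b) {d : ℕ} (i : Fin J)
    (e : Fin d → Derivation ℂ (FunField P) (FunField P)) (g : Matrix (Fin d) (Fin d) (FunField P)) :
    psiL f P i (fun r => ∑ s, g r s • e s) = sbs g (psiL f P i e) := by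
  have h4 : ∀ p : MvPolynomial (Pool.Agent.GG.Ph N) ℂ, sbs g (aeval (tvL P B b e) p) = aeval (fun s => sbs g (tvL P B b e s)) p := by
    intro p
    exact DFunLike.congr_fun (comp_aeval (tvL P B b e) ((sbs g).restrictScalars ℂ)) p
  unfold psiL
  rw [h4]
  congr 2
  funext s
  cases s with
  | inl c =>
    show C (ratio P c b) = sbs g (C (ratio P c b))
    unfold sbs
    rw [aeval_C, algebraMap_eq]
  | inr c =>
    show ∑ r, X r * C (if c ∈ B then (ratio P c b)⁻¹ * (∑ s, g r s • e s) (ratio P c b) else (∑ s, g r s • e s) (ratio P c b)) =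
      sbs g (∑ j, X j * C (if c ∈ B then (ratio P c b)⁻¹ * e j (ratio P c b) else e j (ratio P c b)))
    unfold sbs
    have h5 : ∀ r, X r * C (if c ∈ B then (ratio P c b)⁻¹ * (∑ s, g r s • e s) (ratio P c b) else (∑ s, g r s • e s) (ratio P c b)) =
        ∑ s, C (g r s) * X r * C (if c ∈ B then (ratio P c b)⁻¹ * e s (ratio P c b) else e s (ratio P c b)) := by
      intro r
      have h6 : (∑ s, g r s • e s) (ratio P c b) = ∑ s, g r s * e s (ratio P c b) := by
        rw [← Derivation.coeFnAddMonoidHom_apply, map_sum, Finset.sum_apply]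
        rfl
      have h7 : (if c ∈ B then (ratio P c b)⁻¹ * (∑ s, g r s • e s) (ratio P c b) else (∑ s, g r s • e s) (ratio P c b)) =
          ∑ s, g r s * (if c ∈ B then (ratio P c b)⁻¹ * e s (ratio P c b) else e s (ratio P c b)) := by
        rw [h6]
        split_ifs
        · refine (Finset.mul_sum _ _ _).trans (Finset.sum_congr rfl fun s _ => ?_)
          ring
        · rfl
      rw [h7, map_sum, Finset.mul_sum]
      refine Finset.sum_congr rfl fun s _ => ?_
      rw [C_mul]
      ring
    rw [Finset.sum_congr rfl fun r _ => h5 r, Finset.sum_comm, map_sum]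
    refine Finset.sum_congr rfl fun j _ => ?_
    rw [map_mul, aeval_X, aeval_C, algebraMap_eq, Finset.sum_mul]

/-! ## change of the chart -/

private theorem Psi_change [P.IsPrime] (hP : Homog P) (f : LFrame (m := fun _ => m) θ b) (hb : b ∈ B) (hB : ∀ i ∈ B, X i ∉ P) {c : Fin (N + 1)}
    (hc : X c ∉ P) {d : ℕ} (i : Fin J) {n : ℕ} {A : MvPolynomial (Pool.Agent.GG.Ph N) ℂ}
    (hA : ∀ x ∈ cone P, ∀ ξ, act B x ξ ∈ conTan P x → x c ^ n * (θ i).toFun x ξ = eval (Sum.elim x ξ) A)
    (e : Fin d → Derivation ℂ (FunField P) (FunField P)) : psiL f P i e = aeval (tvL P B c e) A := by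
  set g : Pool.Agent.GG.Ph N → MvPolynomial (Pool.Agent.GG.Ph N ⊕ Unit) ℂ := Sum.elim (fun j => X (Sum.inr ()) * X (Sum.inl (Sum.inl j)))
    (fun j => if j ∈ B then X (Sum.inl (Sum.inr j)) + -X (Sum.inl (Sum.inr b)) else
      X (Sum.inr ()) * X (Sum.inl (Sum.inr j)) + -X (Sum.inl (Sum.inr b)) * (X (Sum.inr ()) * X (Sum.inl (Sum.inl j)))) with hg
  have hb' : X b ∉ P := hB b hb
  have hcb : coordFun P b ≠ 0 := Pool.Agent.H17R.coordFun_ne_zero_iff.2 hb'
  have hcc : coordFun P c ≠ 0 := Pool.Agent.H17R.coordFun_ne_zero_iff.2 hc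
  have hra : ∀ j, ratio P j b = ratio P c b * ratio P j c := by
    intro j
    apply Subtype.ext
    change coordFun P j / coordFun P b = coordFun P c / coordFun P b * (coordFun P j / coordFun P c)
    rw [div_mul_div_comm, mul_comm (coordFun P c) (coordFun P j), mul_div_mul_right _ _ hcc]
  have hrr : ratio P c b * ratio P b c = 1 := by rw [← hra b, Pool.Agent.H17R.ratio_self hcb]
  have hbc : ratio P b c ≠ 0 := right_ne_zero_of_mul_eq_one hrr
  set Y : Pool.Agent.GG.Ph N ⊕ Unit → MvPolynomial (Fin d) (FunField P) := Sum.elim (tvL P B c e) (fun _ => C (ratio P c b)) with hY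
  have key : aeval Y (rename Sum.inl A - aeval g (f.A i)) = 0 := by
    refine transfer (S := {s | s = X (Sum.inr ()) * X (Sum.inl (Sum.inl b)) - 1 ∨ ∃ t ∈ Eqs P B c, s = rename Sum.inl t}) (fun y hy => ?_) _ ?_
    · have hy1 : ∀ s ∈ Eqs P B c, eval (fun s => y (Sum.inl s)) s = 0 := by
        intro s hs
        have := hy _ (Or.inr ⟨s, hs, rfl⟩)
        rw [eval_rename] at this
        exact this
      obtain ⟨h1, h2, h3⟩ := Eqs_complex hy1
      have h0 : y (Sum.inr ()) * y (Sum.inl (Sum.inl b)) = 1 := by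
        have := hy _ (Or.inl rfl)
        rw [map_sub, map_mul, eval_X, eval_X, map_one] at this
        exact sub_eq_zero.1 this
      obtain ⟨t, ht⟩ : ∃ t : ℂ, t = y (Sum.inr ()) := ⟨_, rfl⟩
      obtain ⟨x, hx⟩ : ∃ x : Fin (N + 1) → ℂ, x = fun j => y (Sum.inl (Sum.inl j)) := ⟨_, rfl⟩
      obtain ⟨ξ, hξ⟩ : ∃ ξ : Fin (N + 1) → ℂ, ξ = fun j => y (Sum.inl (Sum.inr j)) := ⟨_, rfl⟩
      have h1' : x ∈ cone P := by rw [hx]; exact h1
      have h2' : x c = 1 := by rw [hx]; exact h2
      have h3' : act B x ξ ∈ conTan P x := by rw [hx, hξ]; exact h3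
      have h0' : t * x b = 1 := by rw [hx, ht]; exact h0
      have ht0 : t ≠ 0 := left_ne_zero_of_mul_eq_one h0'
      have hx' : t • x ∈ cone P := ⟨smul_ne_zero ht0 h1'.1, Pool.Agent.H13.SM.cone_smul hP h1'.2 t⟩
      have hv' : act B (t • x) (lsc B t ξ) ∈ conTan P (t • x) := by
        rw [Psi_act_lsc]
        exact (conTan P _).smul_mem t (Psi_conTan hP t x h3')
      have hxx : t • x ∈ conTan P (t • x) := fun _ h => Pool.Agent.H13.SM.euler hP hx'.2 h
      have hw' : act B (t • x) (lsc B t ξ + (-ξ b) • eul B (t • x)) ∈ conTan P (t • x) := by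
        rw [Psi_act_eul]
        exact (conTan P _).add_mem hv' ((conTan P _).smul_mem _ hxx)
      have e1 : (θ i).toFun (t • x) (lsc B t ξ + (-ξ b) • eul B (t • x)) = (θ i).toFun x ξ := by
        rw [(θ i).add_smul _ hx' _ hv', (θ i).scale _ h1' _ h3' _ ht0]
      have e2 := f.hA i _ hx' (by rw [Pi.smul_apply, smul_eq_mul]; exact h0') _ hw'
      have e3 := hA _ h1' _ h3'
      rw [h2', one_pow, one_mul] at e3
      have h6 : eval y (aeval g (f.A i)) = eval (Pool.Agent.GG.pt (t • x) (lsc B t ξ + (-ξ b) • eul B (t • x))) (f.A i) := by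
        rw [Psi_eval]
        congr 2
        funext s
        cases s with
        | inl j =>
          rw [hg, Sum.elim_inl, map_mul, eval_X, eval_X, ht, hx]
          rfl
        | inr j =>
          rw [hg, Sum.elim_inr]
          show _ = (if j ∈ B then ξ j else t * ξ j) + (-ξ b) * (if j ∈ B then 1 else t * x j)
          by_cases hj : j ∈ B
          · rw [if_pos hj, if_pos hj, if_pos hj, map_add, map_neg, eval_X, eval_X, hξ, mul_one]
          · rw [if_neg hj, if_neg hj, if_neg hj, map_add, map_mul, map_mul, map_neg, map_mul, eval_X, eval_X, eval_X, eval_X, ht, hx, hξ]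
      have h7 : eval y (rename Sum.inl A) = eval (Sum.elim x ξ) A := by
        rw [eval_rename]
        congr 2
        funext s
        cases s with
        | inl j => rw [hx]; rfl
        | inr j => rw [hξ]; rfl
      rw [map_sub, h6, h7, ← e2, ← e3, e1, sub_self]
    · rintro s (rfl | ⟨t, ht, rfl⟩)
      · rw [map_sub, map_mul, aeval_X, aeval_X, map_one]
        show C (ratio P c b) * C (ratio P b c) - 1 = 0
        rw [← C_mul, hrr, C_1, sub_self]
      · rw [aeval_rename]
        exact Eqs_tv hP hB hc e t ht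
  rw [map_sub, sub_eq_zero, aeval_rename] at key
  have h1 : aeval (tvL P B c e) A = aeval (Y ∘ Sum.inl) A := rfl
  rw [h1, key, ← AlgHom.comp_apply, comp_aeval]
  unfold psiL
  congr 2
  funext s
  cases s with
  | inl j =>
    rw [hg, Sum.elim_inl, map_mul, aeval_X, aeval_X]
    show C (ratio P j b) = C (ratio P c b) * C (ratio P j c)
    rw [← C_mul, ← hra]
  | inr j =>
    have hy : ∀ l, Y (Sum.inl (Sum.inr l)) = ∑ r, X r * C (if l ∈ B then (ratio P l c)⁻¹ * e r (ratio P l c) else e r (ratio P l c)) := fun l => rfl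
    have hyb : Y (Sum.inl (Sum.inr b)) = ∑ r, X r * C ((ratio P b c)⁻¹ * e r (ratio P b c)) := by
      rw [hy]
      refine Finset.sum_congr rfl fun r _ => ?_
      rw [if_pos hb]
    have hcb' : ∀ r, e r (ratio P c b) = -((ratio P b c)⁻¹ * e r (ratio P b c)) * ratio P c b := by
      intro r
      have h4 := (e r).leibniz (ratio P c b) (ratio P b c)
      rw [hrr, (e r).map_one_eq_zero, smul_eq_mul, smul_eq_mul] at h4
      apply mul_right_cancel₀ hbc
      rw [neg_mul, neg_mul, mul_assoc, hrr]
      have h5 : (ratio P b c)⁻¹ = ratio P c b := (eq_inv_of_mul_eq_one_left hrr).symm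
      rw [h5]
      linear_combination -h4
    show ∑ r, X r * C (if j ∈ B then (ratio P j b)⁻¹ * e r (ratio P j b) else e r (ratio P j b)) = aeval Y (g (Sum.inr j))
    rw [hg, Sum.elim_inr]
    have hl : ∀ r, e r (ratio P j b) = ratio P c b * e r (ratio P j c) + ratio P j c * e r (ratio P c b) := by
      intro r
      have h3 := (e r).leibniz (ratio P c b) (ratio P j c)
      rw [← hra j, smul_eq_mul, smul_eq_mul] at h3
      exact h3
    by_cases hj : j ∈ B
    · rw [if_pos hj, map_add, map_neg, aeval_X, aeval_X, hyb, hy, ← Finset.sum_neg_distrib, ← Finset.sum_add_distrib]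
      refine Finset.sum_congr rfl fun r _ => ?_
      have hjc : ratio P j c ≠ 0 := Psi_rne hc (hB j hj)
      have hcb0 : ratio P c b ≠ 0 := left_ne_zero_of_mul_eq_one hrr
      have h2 : (ratio P j b)⁻¹ * e r (ratio P j b) = (ratio P j c)⁻¹ * e r (ratio P j c) + -((ratio P b c)⁻¹ * e r (ratio P b c)) := by
        rw [hl, hcb', hra j]
        field_simp
      rw [if_pos hj, if_pos hj, h2, C_add, C_neg]
      ring
    · rw [if_neg hj, map_add, map_mul, map_mul, map_neg, map_mul, aeval_X, aeval_X, aeval_X, aeval_X, hyb, hy]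
      show _ = C (ratio P c b) * _ + -_ * (C (ratio P c b) * C (ratio P j c))
      rw [Finset.mul_sum, ← Finset.sum_neg_distrib, Finset.sum_mul, ← Finset.sum_add_distrib]
      refine Finset.sum_congr rfl fun r _ => ?_
      have h2 : e r (ratio P j b) = ratio P c b * e r (ratio P j c) + -((ratio P b c)⁻¹ * e r (ratio P b c)) * (ratio P c b * ratio P j c) := by
        rw [hl, hcb']
        ring
      rw [if_neg hj, if_neg hj, h2]
      simp only [C_add, C_mul, C_neg]
      ring

private theorem Psi_reg [P.IsPrime] (hP : Homog P) (f : LFrame (m := fun _ => m) θ b) (hb : b ∈ B) (hB : ∀ i ∈ B, X i ∉ P)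
    {k d : ℕ} (i : Fin J) (e : Fin d → Derivation ℂ (FunField P) (FunField P)) (E : PrimeDivisorOver (FunField P) k)
    (he : ∀ j, LDer (BdB P B) E (e j)) : ∀ α, 0 ≤ E.ord (coeff α (psiL f P i e)) := by
  classical
  obtain ⟨c, hc, h⟩ := Pool.Agent.H17R.exists_center E (Pool.Agent.H17R.coordFun_ne_zero_iff.2 (hB b hb))
  have hc' : X c ∉ P := Pool.Agent.H17R.coordFun_ne_zero_iff.1 hc
  obtain ⟨n, A, hA⟩ := (θ i).regular c
  rw [Psi_change hP f hb hB hc' i hA e]
  refine Psi_coeff E _ (fun s α => ?_) _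
  cases s with
  | inl j =>
    show 0 ≤ E.ord (coeff α (C (ratio P j c)))
    rw [coeff_C]
    split_ifs
    · exact h j
    · rw [E.ord.map_zero]
      exact le_top
  | inr j =>
    show 0 ≤ E.ord (coeff α (∑ r, X r * C (if j ∈ B then (ratio P j c)⁻¹ * e r (ratio P j c) else e r (ratio P j c))))
    rw [coeff_sum]
    refine E.ord.map_le_sum fun r _ => ?_
    rw [mul_comm, coeff_C_mul, coeff_X]
    by_cases hα : Finsupp.single r 1 = α
    · rw [if_pos hα, mul_one]
      by_cases hj : j ∈ B
      · rw [if_pos hj]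
        have hne := Psi_rne hc' (hB j hj)
        by_cases hbd : BdB P B E
        · have h1 := (he r).2 hbd _ hne
          rwa [div_eq_inv_mul] at h1
        · have h0 : E.ord (ratio P j c) = 0 := by
            refine le_antisymm (not_lt.1 fun h2 => hbd ⟨c, hc, h, j, hj, h2⟩) (h j)
          have h3 : E.ord (ratio P j c)⁻¹ = 0 := by
            have h4 : E.ord ((ratio P j c)⁻¹ * ratio P j c) = 0 := by rw [inv_mul_cancel₀ hne, E.ord.map_one]
            rwa [E.ord.map_mul, h0, add_zero] at h4
          rw [E.ord.map_mul, h3, zero_add]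
          exact (he r).1 _ (h j)
      · rw [if_neg hj]
        exact (he r).1 _ (h j)
    · rw [if_neg hα, mul_zero, E.ord.map_zero]
      exact le_top

theorem exists_psiFamL [P.IsPrime] (hP : Homog P) (f : LFrame (m := fun _ => m) θ b) (hb : b ∈ B) (hB : ∀ i ∈ B, X i ∉ P) (k d : ℕ) :
    ∃ Ψ : SymFamL (FunField P) k (BdB P B) d m (Fin J), ∀ i e, Ψ.fn i e = psiL f P i e :=
  ⟨{ fn := fun i e => psiL f P i e
     hom := fun i e => Psi_hom hP f hb hB i e
     subst := fun i e g => Psi_subst f i e g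
     reg := fun i e E he => Psi_reg hP f hb hB i e E he }, fun _ _ => rfl⟩

end Pool.Agent.GBL
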