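import Pool.Agent.GB.Trf
import Pool.Agent.H17R.Point
import Pool.Agent.GBL.Defs

/-!
# GBL Spn: the logarithmic symmetric differentials span over the function field

As `GB/Spn`, with `act B x u_j ∈ conTan P x`, `x_b = 1`, `(u_j)_b = 0`, `LogGenerated` and linear forms which kill `eul B x` (whose coordinate `b ∈ B` is `1`).
-/

set_option autoImplicit false

open MvPolynomial
open Pool.Agent.H17LG.Variety (FunField ratio)
open Pool.Agent.H62.FC (Homog)
open Pool.Agent.H13.SM (conTan cone)
open Pool.Agent.GL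
open Pool.Agent.GB (Mon cdet transfer)

namespace Pool.Agent.GBL

/-- a spanning family of vectors contains a basis -/
private theorem exists_det {F ι n : Type} [Field F] [Fintype n] [DecidableEq n] (w : ι → n → F)
    (hs : Submodule.span F (Set.range w) = ⊤) : ∃ I : n → ι, (Matrix.of fun α β => w (I α) β).det ≠ 0 := by
  obtain ⟨κ, a, -, hsp, hli⟩ := exists_linearIndependent' F w
  have hsp' : ⊤ ≤ Submodule.span F (Set.range (w ∘ a)) := by rw [hsp, hs]
  let b : Module.Basis κ F (n → F) := Module.Basis.mk hli hsp'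
  let e : κ ≃ n := b.indexEquiv (Pi.basisFun F n)
  refine ⟨fun α => a (e.symm α), ?_⟩
  have h1 : LinearIndependent F (Matrix.of fun α β => w (a (e.symm α)) β).row :=
    hli.comp e.symm e.symm.injective
  rw [Matrix.linearIndependent_rows_iff_isUnit, Matrix.isUnit_iff_isUnit_det] at h1
  exact h1.ne_zero

private theorem lin_apply {F n W : Type} [Field F] [Fintype n] [DecidableEq n] [AddCommGroup W] [Module F W] (φ : (n → F) →ₗ[F] W)
    (v : n → F) : φ v = ∑ j, v j • φ (Pi.single j 1) := by
  have h1 : v = ∑ j, v j • Pi.single j (1 : F) := by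
    funext i
    simp [Finset.sum_apply, Pi.single_apply]
  conv_lhs => rw [h1]
  rw [map_sum]
  exact Finset.sum_congr rfl fun j _ => map_smul _ _ _

/-- the chain rule -/
private theorem der_aeval {K : Type} [Field K] [Algebra ℂ K] {n : ℕ} (D : Derivation ℂ K K) (x : Fin n → K) (q : MvPolynomial (Fin n) ℂ) :
    D (aeval x q) = ∑ i, D (x i) * aeval x (pderiv i q) := by
  induction q using MvPolynomial.induction_on with
  | C c =>
    simp
  | add p q hp hq =>
    simp only [map_add, mul_add, Finset.sum_add_distrib, hp, hq]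
  | mul_X p i hp =>
    rw [map_mul, aeval_X, Derivation.leibniz, hp, smul_eq_mul, smul_eq_mul]
    have h4 : ∀ j, D (x j) * aeval x (pderiv j (p * X i)) =
        x i * (D (x j) * aeval x (pderiv j p)) + (if j = i then aeval x p * D (x j) else 0) := by
      intro j
      rw [Derivation.leibniz, pderiv_X]
      by_cases hj : j = i
      · subst hj
        simp
        ring
      · rw [Pi.single_eq_of_ne (Ne.symm hj)]
        simp [hj]
        ring
    rw [Finset.sum_congr rfl fun j _ => h4 j, Finset.sum_add_distrib, ← Finset.mul_sum]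
    simp
    ring

/-- independent rows: a minor is not zero -/
private theorem exists_minor {F : Type} [Field F] {d n : ℕ} {r : Fin d → Fin n → F} (hr : LinearIndependent F r) :
    ∃ μ : Fin d → Fin n, (Matrix.of fun j l => r j (μ l)).det ≠ 0 := by
  have hs : Submodule.span F (Set.range fun (b : Fin n) (j : Fin d) => r j b) = ⊤ := by
    by_contra hne
    obtain ⟨φ, hφ, hle⟩ := Submodule.exists_le_ker_of_lt_top _ (lt_top_iff_ne_top.2 hne)
    apply hφ
    have h1 : ∀ v : Fin d → F, φ v = ∑ j, v j * φ (Pi.single j 1) := fun v => by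
      rw [lin_apply φ v]
      simp only [smul_eq_mul]
    have h2 : ∑ j, φ (Pi.single j 1) • r j = 0 := by
      funext b
      have h3 : φ (fun j => r j b) = 0 := hle (Submodule.subset_span ⟨b, rfl⟩)
      rw [h1] at h3
      rw [Finset.sum_apply, Pi.zero_apply, ← h3]
      refine Finset.sum_congr rfl fun j _ => ?_
      rw [Pi.smul_apply, smul_eq_mul, mul_comm]
    have h3 := Fintype.linearIndependent_iff.1 hr _ h2
    refine LinearMap.ext fun v => ?_
    rw [h1, LinearMap.zero_apply]
    exact Finset.sum_eq_zero fun j _ => by rw [h3 j, mul_zero]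
  obtain ⟨μ, hμ⟩ := exists_det _ hs
  refine ⟨μ, ?_⟩
  rw [← Matrix.det_transpose]
  exact hμ

/-- a derivation which kills generators is zero -/
private theorem der_eq_zero {K : Type} [Field K] [Algebra ℂ K] {s : Set K} (hs : IntermediateField.adjoin ℂ s = ⊤) {D : Derivation ℂ K K}
    (hD : ∀ x ∈ s, D x = 0) : D = 0 := by
  ext x
  have hx : x ∈ IntermediateField.adjoin ℂ s := by
    rw [hs]
    trivial
  rw [Derivation.coe_zero, Pi.zero_apply]
  induction hx using IntermediateField.adjoin_induction with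
  | mem x hx => exact hD x hx
  | algebraMap x => exact D.map_algebraMap x
  | add x y _ _ hx hy => rw [map_add, hx, hy, add_zero]
  | inv x _ hx => rw [Derivation.leibniz_inv, hx, smul_zero]
  | mul x y _ _ hx hy => rw [Derivation.leibniz, hx, hy, smul_zero, smul_zero, add_zero]

private theorem rows_li {K : Type} [Field K] [Algebra ℂ K] {n d : ℕ} {x : Fin n → K} (hx : IntermediateField.adjoin ℂ (Set.range x) = ⊤)
    {e : Fin d → Derivation ℂ K K} (he : LinearIndependent K e) : LinearIndependent K fun (j : Fin d) (b : Fin n) => e j (x b) := by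
  rw [Fintype.linearIndependent_iff]
  intro c hc
  refine Fintype.linearIndependent_iff.1 he c ?_
  refine der_eq_zero hx ?_
  rintro _ ⟨b, rfl⟩
  have h1 := congrFun hc b
  have h2 : (∑ i, c i • e i) (x b) = ∑ i, c i * e i (x b) := by
    have h3 := map_sum (Derivation.coeFnAddMonoidHom : Derivation ℂ K K →+ (K → K)) (fun i => c i • e i) Finset.univ
    have h4 := congrFun h3 (x b)
    rw [Finset.sum_apply] at h4
    exact h4
  rw [h2]
  rw [Finset.sum_apply] at h1
  exact h1

section

variable {N : ℕ} {d : ℕ}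

/-- the variables `x_b`, `u_(j b)` -/
private abbrev Vr (N d : ℕ) : Type := Fin (N + 1) ⊕ Fin d × Fin (N + 1)

/-- the polynomial `A (x, ∑ t_j u_j)` in `t` -/
private noncomputable def gp {F : Type} [CommRing F] [Algebra ℂ F] (A : MvPolynomial (Pool.Agent.GG.Ph N) ℂ) (y : Vr N d → F) :
    MvPolynomial (Fin d) F :=
  aeval (Sum.elim (fun b => C (y (Sum.inl b))) fun b => ∑ j, X j * C (y (Sum.inr (j, b)))) A

/-- the generic one -/
private theorem gp_map {F : Type} [CommRing F] [Algebra ℂ F] (A : MvPolynomial (Pool.Agent.GG.Ph N) ℂ) (y : Vr N d → F) :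
    map (aeval y : MvPolynomial (Vr N d) ℂ →ₐ[ℂ] F).toRingHom (gp A (X : Vr N d → MvPolynomial (Vr N d) ℂ)) = gp A y := by
  have h1 : map (aeval y : MvPolynomial (Vr N d) ℂ →ₐ[ℂ] F).toRingHom (gp A (X : Vr N d → MvPolynomial (Vr N d) ℂ)) =
      mapAlgHom (aeval y : MvPolynomial (Vr N d) ℂ →ₐ[ℂ] F) (gp A (X : Vr N d → MvPolynomial (Vr N d) ℂ)) := rfl
  rw [h1]
  unfold gp
  rw [← AlgHom.comp_apply, comp_aeval]
  congr 2
  funext i
  rcases i with b | b
  · simp
  · simp [map_sum]

/-- the determinant of the coefficients -/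
private noncomputable def dt {J m : ℕ} (A : Fin J → MvPolynomial (Pool.Agent.GG.Ph N) ℂ) (I : Mon d m → Fin J) : MvPolynomial (Vr N d) ℂ :=
  (Matrix.of fun α β : Mon d m => coeff β.1 (gp (A (I α)) (X : Vr N d → MvPolynomial (Vr N d) ℂ))).det

private theorem aeval_dt {J m : ℕ} (A : Fin J → MvPolynomial (Pool.Agent.GG.Ph N) ℂ) (I : Mon d m → Fin J) {F : Type} [CommRing F] [Algebra ℂ F]
    (y : Vr N d → F) : aeval y (dt A I) = (Matrix.of fun α β : Mon d m => coeff β.1 (gp (A (I α)) y)).det := by
  unfold dt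
  have h1 := (aeval y : MvPolynomial (Vr N d) ℂ →ₐ[ℂ] F).toRingHom.map_det
    (Matrix.of fun α β : Mon d m => coeff β.1 (gp (A (I α)) (X : Vr N d → MvPolynomial (Vr N d) ℂ)))
  refine h1.trans ?_
  congr 1
  ext α β
  rw [RingHom.mapMatrix_apply, Matrix.map_apply, Matrix.of_apply, Matrix.of_apply, ← gp_map (A (I α)) y, coeff_map]

private theorem eval_gp (A : MvPolynomial (Pool.Agent.GG.Ph N) ℂ) (y : Vr N d → ℂ) (t : Fin d → ℂ) :
    eval t (gp A y) = eval (Pool.Agent.GG.pt (fun b => y (Sum.inl b)) (∑ j, t j • fun b => y (Sum.inr (j, b)))) A := by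
  unfold gp
  have h1 : eval t (aeval (Sum.elim (fun b => C (y (Sum.inl b))) fun b => ∑ j, X j * C (y (Sum.inr (j, b)))) A) =
      (aeval t : MvPolynomial (Fin d) ℂ →ₐ[ℂ] ℂ) (aeval (Sum.elim (fun b => C (y (Sum.inl b))) fun b => ∑ j, X j * C (y (Sum.inr (j, b)))) A) := rfl
  have h2 : eval (Pool.Agent.GG.pt (fun b => y (Sum.inl b)) (∑ j, t j • fun b => y (Sum.inr (j, b)))) A =
      (aeval (Pool.Agent.GG.pt (fun b => y (Sum.inl b)) (∑ j, t j • fun b => y (Sum.inr (j, b)))) :
        MvPolynomial (Pool.Agent.GG.Ph N) ℂ →ₐ[ℂ] ℂ) A := rfl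
  rw [h1, h2, ← AlgHom.comp_apply, comp_aeval]
  congr 2
  funext i
  rcases i with b | b
  · simp
  · simp [Finset.sum_apply]

end

/-- independent rows stay independent if the columns are scaled -/
private theorem rows_scale {K : Type} [Field K] {n d : ℕ} {r : Fin d → Fin n → K} (hr : LinearIndependent K r) {s : Fin n → K} (hs : ∀ i, s i ≠ 0) :
    LinearIndependent K fun (j : Fin d) (i : Fin n) => s i * r j i := by
  rw [Fintype.linearIndependent_iff]
  intro c hc
  refine Fintype.linearIndependent_iff.1 hr c ?_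
  funext i
  have h1 := congrFun hc i
  rw [Finset.sum_apply, Pi.zero_apply] at h1 ⊢
  simp only [Pi.smul_apply, smul_eq_mul] at h1 ⊢
  have h2 : s i * ∑ j, c j * r j i = 0 := by
    rw [Finset.mul_sum, ← h1]
    exact Finset.sum_congr rfl fun j _ => by ring
  exact (mul_eq_zero.1 h2).resolve_left (hs i)

private theorem act_lin {N d : ℕ} (B : Finset (Fin (N + 1))) (x : Fin (N + 1) → ℂ) (u : Fin d → Fin (N + 1) → ℂ) (t : Fin d → ℂ) :
    act B x (∑ j, t j • u j) = ∑ j, t j • act B x (u j) := by
  funext i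
  rw [Finset.sum_apply]
  unfold act
  by_cases hi : i ∈ B
  · simp only [hi, if_true, Finset.sum_apply, Pi.smul_apply, smul_eq_mul, Finset.mul_sum]
    exact Finset.sum_congr rfl fun j _ => by ring
  · simp only [hi, if_false, Finset.sum_apply, Pi.smul_apply, smul_eq_mul]

variable {N : ℕ} {P : Ideal (MvPolynomial (Fin (N + 1)) ℂ)} {B : Finset (Fin (N + 1))} {J m : ℕ} {θ : Fin J → LogSec P B m} {b : Fin (N + 1)}

/-- the complex points: the polynomials span if the vectors are independent -/
private theorem complex_point (hgen : LogGenerated θ) (f : LFrame (m := fun _ => m) θ b) (hb : b ∈ B) {d : ℕ} (y : Vr N d → ℂ)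
    (h1 : y (Sum.inl b) = 1) (h2 : ∀ j, y (Sum.inr (j, b)) = 0) (h3 : ∀ q ∈ P, eval (fun i => y (Sum.inl i)) q = 0)
    (h4 : ∀ j, act B (fun i => y (Sum.inl i)) (fun i => y (Sum.inr (j, i))) ∈ conTan P fun i => y (Sum.inl i))
    (hu : LinearIndependent ℂ fun (j : Fin d) (i : Fin (N + 1)) => y (Sum.inr (j, i))) :
    ∃ I : Mon d m → Fin J, aeval y (dt f.A I) ≠ 0 := by
  obtain ⟨x, hx⟩ : ∃ x : Fin (N + 1) → ℂ, x = fun i => y (Sum.inl i) := ⟨_, rfl⟩
  obtain ⟨u, hudef⟩ : ∃ u : Fin d → Fin (N + 1) → ℂ, u = fun j i => y (Sum.inr (j, i)) := ⟨_, rfl⟩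
  have hxa : x b = 1 := by rw [hx]; exact h1
  have hua : ∀ j, u j b = 0 := fun j => by rw [hudef]; exact h2 j
  have hxc : x ∈ cone P := by
    refine ⟨fun h => ?_, fun q hq => by rw [hx]; exact h3 q hq⟩
    rw [h] at hxa
    exact zero_ne_one hxa
  have huc : ∀ j, act B x (u j) ∈ conTan P x := fun j => by
    rw [hx, hudef]
    exact h4 j
  have hee : eul B x b = 1 := by
    unfold eul
    rw [if_pos hb]
  rw [← hudef] at hu
  -- dual forms
  obtain ⟨w, hw⟩ : ∃ w : Unit ⊕ Fin d → Fin (N + 1) → ℂ, w = Sum.elim (fun _ => eul B x) u := ⟨_, rfl⟩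
  have hwli : LinearIndependent ℂ w := by
    rw [Fintype.linearIndependent_iff]
    intro g hg
    rw [Fintype.sum_sum_type, hw] at hg
    simp only [Sum.elim_inl, Sum.elim_inr, Finset.univ_unique, Finset.sum_singleton] at hg
    have h5 : g (Sum.inl default) = 0 := by
      have h6 := congrFun hg b
      rw [Pi.add_apply, Finset.sum_apply, Pi.smul_apply, hee, smul_eq_mul, mul_one] at h6
      rw [Finset.sum_eq_zero fun j _ => by rw [Pi.smul_apply, hua, smul_zero], add_zero] at h6
      exact h6
    rw [h5, zero_smul, zero_add] at hg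
    have h6 := Fintype.linearIndependent_iff.1 hu _ hg
    rintro (i | i)
    · exact h5
    · exact h6 i
  obtain ⟨g, hg⟩ := LinearMap.exists_leftInverse_of_injective (Fintype.linearCombination ℂ w)
    (LinearMap.ker_eq_bot.2 (linearIndependent_iff_injective_fintypeLinearCombination.1 hwli))
  have hgw : ∀ i, g (w i) = Pi.single i 1 := by
    intro i
    have h5 := LinearMap.congr_fun hg (Pi.single i 1)
    rw [LinearMap.comp_apply, Fintype.linearCombination_apply_single, one_smul, LinearMap.id_apply] at h5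
    exact h5
  obtain ⟨L, hL⟩ : ∃ L : Fin d → MvPolynomial (Fin (N + 1)) ℂ, L = fun j => ∑ i, C (g (Pi.single i 1) (Sum.inr j)) * X i := ⟨_, rfl⟩
  have hLe : ∀ j v, eval v (L j) = g v (Sum.inr j) := by
    intro j v
    have h5 : g v = ∑ i, v i • g (Pi.single i 1) := lin_apply g v
    rw [hL, h5, Finset.sum_apply]
    simp only [map_sum, map_mul, eval_C, eval_X]
    refine Finset.sum_congr rfl fun i _ => ?_
    rw [Pi.smul_apply, smul_eq_mul, mul_comm]
  have hLh : ∀ j, (L j).IsHomogeneous 1 := by
    intro j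
    rw [hL]
    exact IsHomogeneous.sum _ _ _ fun i _ => isHomogeneous_C_mul_X _ _
  -- the coefficients
  obtain ⟨p, hp⟩ : ∃ p : Fin J → MvPolynomial (Fin d) ℂ, p = fun k => gp (f.A k) y := ⟨_, rfl⟩
  have key : ∀ α : Mon d m, ∃ c : Fin J → ℂ, ∀ β : Mon d m, (if α = β then (1 : ℂ) else 0) = ∑ k, c k * coeff β.1 (p k) := by
    intro α
    have hα : (∑ j, α.1 j) = m := (Finset.mem_finsuppAntidiag.1 α.2).1
    obtain ⟨c, hc⟩ := hgen x hxc (∏ j, L j ^ α.1 j) (by
      have h5 := IsHomogeneous.prod Finset.univ (fun j => L j ^ α.1 j) (fun j => 1 * α.1 j) fun j _ => (hLh j).pow _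
      simp only [one_mul] at h5
      rw [hα] at h5
      exact h5) (by
      intro v s
      rw [map_prod, map_prod]
      refine Finset.prod_congr rfl fun j _ => ?_
      rw [map_pow, map_pow, hLe, hLe, map_add, map_smul]
      have h5 : g (eul B x) = Pi.single (Sum.inl ()) 1 := by
        have h6 := hgw (Sum.inl ())
        rw [hw] at h6
        exact h6
      rw [h5]
      simp)
    refine ⟨c, fun β => ?_⟩
    have h5 : monomial α.1 (1 : ℂ) = ∑ k, C (c k) * p k := by
      refine MvPolynomial.funext fun t => ?_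
      have h6 : act B x (∑ j, t j • u j) ∈ conTan P x := by
        rw [act_lin]
        exact Submodule.sum_mem _ fun j _ => Submodule.smul_mem _ _ (huc j)
      have h7 := hc _ h6
      have h8 : ∀ j, g (∑ i, t i • u i) (Sum.inr j) = t j := by
        intro j
        rw [map_sum, Finset.sum_apply, Finset.sum_eq_single j]
        · have h9 := hgw (Sum.inr j)
          rw [hw, Sum.elim_inr] at h9
          rw [map_smul, h9, Pi.smul_apply, Pi.single_eq_same, smul_eq_mul, mul_one]
        · intro i _ hi
          have h9 := hgw (Sum.inr i)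
          rw [hw, Sum.elim_inr] at h9
          rw [map_smul, h9, Pi.smul_apply, Pi.single_eq_of_ne (fun h => hi (Sum.inr.inj h).symm), smul_zero]
        · intro h
          exact absurd (Finset.mem_univ j) h
      rw [map_prod] at h7
      simp only [map_pow, hLe, h8] at h7
      rw [map_sum]
      simp only [map_mul, eval_C]
      have h9 : ∀ k, eval t (p k) = (θ k).toFun x (∑ j, t j • u j) := by
        intro k
        rw [f.hA k x hxc hxa _ h6, hp, hx, hudef]
        exact eval_gp _ _ _
      simp only [h9]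
      rw [← h7, eval_monomial, one_mul, Finsupp.prod_fintype]
      intro i
      exact pow_zero _
    have h6 := congrArg (coeff β.1) h5
    rw [coeff_monomial, coeff_sum] at h6
    simp only [coeff_C_mul] at h6
    rw [← h6]
    by_cases h : α = β
    · rw [if_pos h, if_pos (congrArg Subtype.val h)]
    · rw [if_neg h, if_neg fun h7 => h (Subtype.ext h7)]
  have hs : Submodule.span ℂ (Set.range fun (k : Fin J) (β : Mon d m) => coeff β.1 (p k)) = ⊤ := by
    rw [eq_top_iff, ← (Pi.basisFun ℂ (Mon d m)).span_eq, Submodule.span_le]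
    rintro _ ⟨α, rfl⟩
    obtain ⟨c, hc⟩ := key α
    have h5 : (Pi.basisFun ℂ (Mon d m)) α = ∑ k, c k • fun β : Mon d m => coeff β.1 (p k) := by
      funext β
      rw [Pi.basisFun_apply, Finset.sum_apply]
      simp only [Pi.smul_apply, smul_eq_mul]
      rw [← hc β, Pi.single_apply]
      exact if_congr eq_comm rfl rfl
    rw [h5]
    exact Submodule.sum_mem _ fun k _ => Submodule.smul_mem _ _ (Submodule.subset_span ⟨k, rfl⟩)
  obtain ⟨I, hI⟩ := exists_det _ hs
  refine ⟨I, ?_⟩
  rw [aeval_dt]
  rw [hp] at hI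
  exact hI

theorem exists_index_psiL [P.IsPrime] (hP : Homog P) (hgen : LogGenerated θ) (f : LFrame (m := fun _ => m) θ b) (hb : b ∈ B) (hB : ∀ i ∈ B, X i ∉ P)
    {d : ℕ} {e : Fin d → Derivation ℂ (FunField P) (FunField P)} (he : LinearIndependent (FunField P) e) :
    ∃ I : Mon d m → Fin J, cdet (fun α => psiL f P (I α) e) ≠ 0 := by
  by_contra hcon
  push Not at hcon
  have hb' : Pool.Agent.H17GT.coordFun P b ≠ 0 := Pool.Agent.H17R.coordFun_ne_zero_iff.2 (hB b hb)
  have hr0 : ∀ i ∈ B, ratio P i b ≠ 0 := fun i hi =>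
    (Pool.Agent.H17R.ratio_ne_zero_iff hb').2 (Pool.Agent.H17R.coordFun_ne_zero_iff.2 (hB i hi))
  obtain ⟨y, hy⟩ : ∃ y : Vr N d → FunField P, y = Sum.elim (fun i => ratio P i b) fun p =>
      if p.2 ∈ B then (ratio P p.2 b)⁻¹ * e p.1 (ratio P p.2 b) else e p.1 (ratio P p.2 b) := ⟨_, rfl⟩
  have hyl : ∀ i, y (Sum.inl i) = ratio P i b := fun i => by rw [hy]; rfl
  have hyr : ∀ j i, y (Sum.inr (j, i)) = if i ∈ B then (ratio P i b)⁻¹ * e j (ratio P i b) else e j (ratio P i b) := fun j i => by rw [hy]; rfl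
  have hgp : ∀ k, gp (f.A k) y = psiL f P k e := by
    intro k
    unfold gp psiL tvL
    simp only [hyl, hyr]
  have hgen0 : ∀ q ∈ P, aeval (fun i => ratio P i b) q = 0 := by
    intro q hq
    rw [← sum_homogeneousComponent q, map_sum]
    refine Finset.sum_eq_zero fun n _ => ?_
    exact (Pool.Agent.H17R.gen_eq_zero_iff hb' (homogeneousComponent_isHomogeneous n q)).2 (hP q hq n)
  have hder : ∀ (D : Derivation ℂ (FunField P) (FunField P)) (q : MvPolynomial (Fin (N + 1)) ℂ),
      D (aeval (fun i => ratio P i b) q) = ∑ i, D (ratio P i b) * aeval (fun i => ratio P i b) (pderiv i q) := fun D q => der_aeval D _ q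
  -- the transfer
  have hmin : ∀ μ : Fin d → Fin (N + 1), (Matrix.of fun j l => y (Sum.inr (j, μ l))).det = 0 := by
    intro μ
    obtain ⟨S, hS⟩ : ∃ S : Set (MvPolynomial (Vr N d) ℂ), S = {X (Sum.inl b) - 1} ∪ (Set.range fun j : Fin d => X (Sum.inr (j, b))) ∪
        (rename Sum.inl '' (P : Set (MvPolynomial (Fin (N + 1)) ℂ))) ∪
        (⋃ j : Fin d, (fun q => ∑ i, (if i ∈ B then X (Sum.inl i) * X (Sum.inr (j, i)) else X (Sum.inr (j, i))) * rename Sum.inl (pderiv i q)) ''
          (P : Set (MvPolynomial (Fin (N + 1)) ℂ))) ∪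
        Set.range fun I : Mon d m → Fin J => dt f.A I := ⟨_, rfl⟩
    obtain ⟨G, hG⟩ : ∃ G : MvPolynomial (Vr N d) ℂ, G = (Matrix.of fun j l : Fin d => X (Sum.inr (j, μ l))).det := ⟨_, rfl⟩
    have hGe : ∀ {F : Type} [CommRing F] [Algebra ℂ F] (z : Vr N d → F), aeval z G = (Matrix.of fun j l : Fin d => z (Sum.inr (j, μ l))).det := by
      intro F _ _ z
      rw [hG]
      have h1 := (aeval z : MvPolynomial (Vr N d) ℂ →ₐ[ℂ] F).toRingHom.map_det (Matrix.of fun j l : Fin d => X (Sum.inr (j, μ l)))
      refine h1.trans ?_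
      congr 1
      ext j l
      rw [RingHom.mapMatrix_apply, Matrix.map_apply, Matrix.of_apply, Matrix.of_apply]
      exact aeval_X _ _
    have h1 := transfer (S := S) (G := G) (fun z hz => ?_) y (fun s hs => ?_)
    · rw [hGe] at h1
      exact h1
    · -- complex points
      by_contra hne
      rw [← coe_aeval_eq_eval] at hne
      have hne' : (Matrix.of fun j l : Fin d => z (Sum.inr (j, μ l))).det ≠ 0 := by
        rw [← hGe]
        exact hne
      have hu : LinearIndependent ℂ fun (j : Fin d) (i : Fin (N + 1)) => z (Sum.inr (j, i)) := by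
        have h2 : IsUnit (Matrix.of fun j l : Fin d => z (Sum.inr (j, μ l))) := by
          rw [Matrix.isUnit_iff_isUnit_det]
          exact isUnit_iff_ne_zero.2 hne'
        rw [← Matrix.linearIndependent_rows_iff_isUnit] at h2
        exact LinearIndependent.of_comp (LinearMap.funLeft ℂ ℂ μ) h2
      have e1 : z (Sum.inl b) = 1 := by
        have h2 := hz (X (Sum.inl b) - 1) (by rw [hS]; simp)
        rw [map_sub, eval_X, map_one, sub_eq_zero] at h2
        exact h2
      have e2 : ∀ j, z (Sum.inr (j, b)) = 0 := by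
        intro j
        have h2 := hz (X (Sum.inr (j, b))) (by
          rw [hS]
          exact Or.inl (Or.inl (Or.inl (Or.inr ⟨j, rfl⟩))))
        rw [eval_X] at h2
        exact h2
      have e3 : ∀ q ∈ P, eval (fun i => z (Sum.inl i)) q = 0 := by
        intro q hq
        have h2 := hz (rename Sum.inl q) (by
          rw [hS]
          exact Or.inl (Or.inl (Or.inr ⟨q, hq, rfl⟩)))
        rw [eval_rename] at h2
        exact h2
      have e4 : ∀ j, act B (fun i => z (Sum.inl i)) (fun i => z (Sum.inr (j, i))) ∈ conTan P fun i => z (Sum.inl i) := by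
        intro j q hq
        have h2 := hz (∑ i, (if i ∈ B then X (Sum.inl i) * X (Sum.inr (j, i)) else X (Sum.inr (j, i))) * rename Sum.inl (pderiv i q)) (by
          rw [hS]
          exact Or.inl (Or.inr (Set.mem_iUnion.2 ⟨j, q, hq, rfl⟩)))
        rw [map_sum] at h2
        rw [← h2]
        refine Finset.sum_congr rfl fun i _ => ?_
        rw [map_mul, eval_rename]
        congr 1
        unfold act
        by_cases hi : i ∈ B
        · rw [if_pos hi, if_pos hi, map_mul, eval_X, eval_X]
        · rw [if_neg hi, if_neg hi, eval_X]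
      obtain ⟨I, hI⟩ := complex_point hgen f hb z e1 e2 e3 e4 hu
      apply hI
      have h2 := hz (dt f.A I) (by
        rw [hS]
        exact Or.inr ⟨I, rfl⟩)
      rw [← coe_aeval_eq_eval] at h2
      exact h2
    · -- the point of the function field
      rw [hS] at hs
      rcases hs with (((hs | hs) | hs) | hs) | hs
      · rw [Set.mem_singleton_iff] at hs
        rw [hs, map_sub, aeval_X, map_one, hyl, Pool.Agent.H17R.ratio_self hb', sub_self]
      · obtain ⟨j, rfl⟩ := hs
        rw [aeval_X, hyr, if_pos hb, Pool.Agent.H17R.ratio_self hb', Derivation.map_one_eq_zero, mul_zero]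
      · obtain ⟨q, hq, rfl⟩ := hs
        rw [aeval_rename]
        have h2 : y ∘ Sum.inl = fun i => ratio P i b := funext hyl
        rw [h2]
        exact hgen0 q hq
      · obtain ⟨j, q, hq, rfl⟩ := Set.mem_iUnion.1 hs
        have h2 : y ∘ Sum.inl = fun i => ratio P i b := funext hyl
        have h3 : e j (aeval (fun i => ratio P i b) q) = 0 := by rw [hgen0 q hq, map_zero]
        rw [map_sum, ← h3, hder]
        refine Finset.sum_congr rfl fun i _ => ?_
        rw [map_mul, aeval_rename, h2]
        congr 1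
        by_cases hi : i ∈ B
        · rw [if_pos hi, map_mul, aeval_X, aeval_X, hyl, hyr, if_pos hi, ← mul_assoc, mul_inv_cancel₀ (hr0 i hi), one_mul]
        · rw [if_neg hi, aeval_X, hyr, if_neg hi]
      · obtain ⟨I, rfl⟩ := hs
        rw [aeval_dt]
        simp only [hgp]
        have h2 := hcon I
        unfold cdet at h2
        convert h2
  -- dependence
  have hrow : LinearIndependent (FunField P) fun (j : Fin d) (i : Fin (N + 1)) => y (Sum.inr (j, i)) := by
    have h1 := rows_scale (rows_li (Pool.Agent.H17R.adjoin_ratio hb') he) (s := fun i => if i ∈ B then (ratio P i b)⁻¹ else 1) (fun i => by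
      by_cases hi : i ∈ B
      · simp only [if_pos hi]
        exact inv_ne_zero (hr0 i hi)
      · simp only [if_neg hi]
        exact one_ne_zero)
    have h2 : (fun (j : Fin d) (i : Fin (N + 1)) => y (Sum.inr (j, i))) =
        fun (j : Fin d) (i : Fin (N + 1)) => (if i ∈ B then (ratio P i b)⁻¹ else 1) * e j (ratio P i b) := by
      funext j i
      rw [hyr]
      by_cases hi : i ∈ B
      · rw [if_pos hi, if_pos hi]
      · rw [if_neg hi, if_neg hi, one_mul]
    rw [h2]
    exact h1
  obtain ⟨μ, hμ⟩ := exists_minor hrow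
  exact hμ (hmin μ)

end Pool.Agent.GBL
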