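import Pool.Agent.GB.Asm
import Pool.Agent.GB.Pt
import Pool.Agent.GBL.Reg
import Pool.Agent.GBL.Max
import Pool.Agent.GBL.Psi
import Pool.Agent.GBL.Prd
import Pool.Agent.GBL.Spn

/-!
# GBL Asm: a tangent vector with values in a field

As `GB/Asm`.  `x_i = ratio P i b` in `F = FractionRing (MvPolynomial (Fin d) K)`, `D` as in `GB/Asm`, `y (inl i) = x_i`, `y (inl last) = (∏ i ∈ B, x_i)⁻¹`, `y (inr s) = D (y (inl s))`.
-/

set_option autoImplicit false

open MvPolynomial
open Pool.Agent.H17LG.Variety (FunField ratio IsLogGeneralType)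
open Pool.Agent.H23.Fano (PrimeDivisorOver Form)
open Pool.Agent.H62.FC (Homog)
open Pool.Agent.GL
open Pool.Agent.GB (Mon cdet sbs IsWeight Rel vol dph exists_weight exists_frame_ker indep_of_vol linearIndependent_D dph_ne exists_rel exists_prd_index Asm_der
  Asm_der_eq_zero)

namespace Pool.Agent.GBL

open Pool.Agent.GG

section Field

variable {K : Type} [Field K] [Algebra ℂ K] {k d κ M l : ℕ} {ι : Type} {z : Fin k → K} {Bd : PrimeDivisorOver K k → Prop}

private theorem Asm_first (hz : IsTranscendenceBasis ℂ z) (hk : 1 ≤ k) (hM : 1 ≤ M) (Ψ : SymFamL K k Bd k M ι)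
    (hI : ∀ e : Fin k → Derivation ℂ K K, LinearIndependent K e → ∃ I : Mon k M → ι, cdet (fun α => Ψ.fn (I α) e) ≠ 0) :
    ∃ (M' : ℕ) (u : K), 1 ≤ M' ∧ RegL Bd z M' u ∧ u ≠ 0 := by
  obtain ⟨a, ha, haw⟩ := exists_weight hk hM
  have hφ : AlgebraicIndependent ℂ (fun i : Fin 0 => ((fun _ : Fin 1 => (1 : K)) i.succ / (fun _ : Fin 1 => (1 : K)) 0)) := by
    rw [algebraicIndependent_empty_type_iff]
    exact (algebraMap ℂ K).injective
  obtain ⟨e, h, he, hv⟩ := exists_frame_ker (d := k) (Nat.add_zero k) hz hφ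
  have ε : Fin k ⊕ Fin 0 ≃ Fin k := Equiv.sumEmpty _ _
  obtain ⟨I, hI⟩ := hI e (indep_of_vol (hv ε))
  refine ⟨_, _, ?_, reg_cdetL hz Ψ haw (s := fun _ => 1) (l := 0) one_ne_zero (fun _ => regL_one z) (linearIndependent_D hφ) he (hv ε) I, ?_⟩
  · omega
  · refine mul_ne_zero (mul_ne_zero hI (pow_ne_zero _ (div_ne_zero ?_ (hv ε)))) (pow_ne_zero _ one_ne_zero)
    exact dph_ne hz (linearIndependent_D hφ) he (hv ε)

private theorem Asm_rel (hz : IsTranscendenceBasis ℂ z) (hd : 1 ≤ d) (hM : 1 ≤ M) (Ψ : SymFamL K k Bd d M ι) {s : Fin (κ + 1) → K} (hs0 : s 0 ≠ 0)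
    (hs : ∀ i, RegL Bd z l (s i)) (hφ : LinearIndependent K fun i : Fin κ => KaehlerDifferential.D ℂ K (s i.succ / s 0))
    {ε : Fin d ⊕ Fin κ ≃ Fin k} {e : Fin d → Derivation ℂ K K} {h : Fin κ → Derivation ℂ K K}
    (he : ∀ (j : Fin d) (i : Fin κ), e j (s i.succ / s 0) = 0) (hv : vol z ε e h ≠ 0)
    (hmax : ∀ (M' : ℕ) (u' v' : K), RegL Bd z M' u' → RegL Bd z M' v' → v' ≠ 0 →
        ∀ D : Derivation ℂ K K, (∀ i : Fin κ, D (s i.succ / s 0) = 0) → D (u' / v') = 0)
    {I : Mon d M → ι} (hI : cdet (fun α => Ψ.fn (I α) e) ≠ 0) : ∃ c : ι → Mon d M → K, Rel e (fun i => Ψ.fn i e) I c := by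
  obtain ⟨a, -, haw⟩ := exists_weight hd hM
  refine exists_rel (fun i => Ψ.hom i e) hI fun I' j => ?_
  have hw : (dph (fun i : Fin κ => s i.succ / s 0) h / vol z ε e h) ^ a ≠ 0 := pow_ne_zero _ (div_ne_zero (dph_ne hz hφ he hv) hv)
  have hs' : s 0 ^ (2 * κ * a) ≠ 0 := pow_ne_zero _ hs0
  have h1 := hmax _ _ _ (reg_cdetL hz Ψ haw hs0 hs hφ he hv I') (reg_cdetL hz Ψ haw hs0 hs hφ he hv I) (mul_ne_zero (mul_ne_zero hI hw) hs') (e j) (he j)
  rwa [mul_div_mul_right _ _ hs', mul_div_mul_right _ _ hw] at h1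

private theorem Asm_prod {F : Type} [Field F] [Algebra ℂ F] (D : Derivation ℂ F F) {ι : Type} [DecidableEq ι] (x : ι → F) (s : Finset ι) :
    D (∏ l ∈ s, x l) = ∑ i ∈ s, D (x i) * ∏ l ∈ s.erase i, x l := by
  induction s using Finset.induction_on with
  | empty => simp
  | insert a s ha ih =>
    rw [Finset.prod_insert ha, Derivation.leibniz, ih, Finset.sum_insert ha, Finset.erase_insert ha, smul_eq_mul, smul_eq_mul, Finset.mul_sum, add_comm,
      mul_comm (∏ l ∈ s, x l)]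
    congr 1
    refine Finset.sum_congr rfl fun i hi => ?_
    have h1 : (insert a s).erase i = insert a (s.erase i) := Finset.erase_insert_of_ne fun h => ha (h ▸ hi)
    rw [h1, Finset.prod_insert (fun h => ha (Finset.mem_of_mem_erase h))]
    ring

end Field

variable {N : ℕ} {P : Ideal (MvPolynomial (Fin (N + 1)) ℂ)} {B : Finset (Fin (N + 1))} {J m : ℕ} {θ : Fin J → LogSec P B m} {b : Fin (N + 1)}

theorem exists_field_pointL [P.IsPrime] (hP : Homog P) (hm : 1 ≤ m) (hgen : LogGenerated θ) (f : LFrame (m := fun _ => m) θ b) (hb : b ∈ B)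
    (hB : ∀ i ∈ B, X i ∉ P) {k : ℕ} (hk : 1 ≤ k) {z : Fin k → FunField P} (hz : IsTranscendenceBasis ℂ z)
    (hn : ¬ IsLogGeneralType (K := FunField P) (k := k) (BdB P B)) :
    ∃ (F : Type) (_ : Field F) (_ : Algebra ℂ F) (D : Derivation ℂ F F) (y : Ph (N + 1) → F), (∀ i, D (y (Sum.inl i)) = y (Sum.inr i)) ∧
      (∀ l, D (aeval y (gfamL f l)) = 0) ∧ y (Sum.inl b.castSucc) = 1 ∧
      (∀ q ∈ P, aeval y (rename (fun i : Fin (N + 1) => (Sum.inl i.castSucc : Ph (N + 1))) q) = 0) ∧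
      y (Sum.inl (Fin.last (N + 1))) * ∏ l ∈ B, y (Sum.inl l.castSucc) = 1 ∧
      (∀ (q : MvPolynomial (Fin (N + 1)) ℂ) (n : ℕ), q.IsHomogeneous n → q ∉ P →
        aeval y (rename (fun i : Fin (N + 1) => (Sum.inl i.castSucc : Ph (N + 1))) q) ≠ 0) ∧ ∃ i : Fin (N + 1), y (Sum.inr i.castSucc) ≠ 0 := by
  classical
  haveI : Algebra.EssFiniteType ℂ (FunField P) := Pool.Agent.H17GT.essFiniteType_functionField P
  have ha := hB b hb
  have hac := Pool.Agent.H17R.coordFun_ne_zero_iff.2 ha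
  -- a nonzero pluricanonical form
  obtain ⟨Ψ₀, hΨ₀⟩ := exists_psiFamL hP f hb hB k k
  obtain ⟨M', u, hM', hu, hu0⟩ := Asm_first hz hk hm Ψ₀ fun e he => by
    simp only [hΨ₀]
    exact exists_index_psiL hP hgen f hb hB he
  obtain ⟨κ, l, s, hκ, hs0, hs, hφa, hmax⟩ := exists_maxL hk hz hn hM' hu hu0
  obtain ⟨d, hd⟩ : ∃ d, d + κ = k := ⟨k - κ, by omega⟩
  have hd1 : 1 ≤ d := by omega
  obtain ⟨e, h, he, hv⟩ := exists_frame_ker hd hz hφa
  have hφ := linearIndependent_D hφa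
  have ε : Fin d ⊕ Fin κ ≃ Fin k := finSumFinEquiv.trans (finCongr hd)
  obtain ⟨Ψ, hΨ⟩ := exists_psiFamL hP f hb hB k d
  obtain ⟨Ψ₂, hΨ₂⟩ := exists_prdFamL Ψ
  have hei := indep_of_vol (hv ε)
  obtain ⟨I, hI⟩ := exists_index_psiL hP hgen f hb hB hei
  simp only [← hΨ] at hI
  obtain ⟨I₂, hI₂⟩ := exists_prd_index (fun i => Ψ.hom i e) hI
  simp only [← hΨ₂] at hI₂
  obtain ⟨c, hc⟩ := Asm_rel hz hd1 hm Ψ hs0 hs hφ he (hv ε) hmax hI
  obtain ⟨c₂, hc₂⟩ := Asm_rel hz hd1 (by omega) Ψ₂ hs0 hs hφ he (hv ε) hmax hI₂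
  simp only [hΨ₂] at hc₂
  obtain ⟨D, hD, hDp⟩ := Asm_der hz hm hc hc₂
  simp only [hΨ] at hDp
  set F := FractionRing (MvPolynomial (Fin d) (FunField P)) with hF
  set x : Fin (N + 1) → F := fun i => algebraMap (FunField P) F (ratio P i b) with hx
  let φ : MvPolynomial (Fin d) (FunField P) →ₐ[ℂ] F := IsScalarTower.toAlgHom ℂ _ _
  have hφv : ∀ x, φ x = algebraMap (MvPolynomial (Fin d) (FunField P)) F x := fun _ => rfl
  have hφC : ∀ c : FunField P, φ (C c) = algebraMap (FunField P) F c := fun c => by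
    rw [hφv, IsScalarTower.algebraMap_apply (FunField P) (MvPolynomial (Fin d) (FunField P)) F, MvPolynomial.algebraMap_eq]
  have hφi : ∀ x, φ x = 0 → x = 0 := fun x hx0 => by
    rw [hφv] at hx0
    exact (map_eq_zero_iff _ (IsFractionRing.injective (MvPolynomial (Fin d) (FunField P)) F)).1 hx0
  have hDx : ∀ i, D (x i) = ∑ j, φ (X j * C (e j (ratio P i b))) := by
    intro i
    rw [hx]
    show D (algebraMap (FunField P) F (ratio P i b)) = _
    rw [hD]
    refine Finset.sum_congr rfl fun j _ => ?_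
    rw [map_mul, hφC, hφv]
  have hxB : ∀ i ∈ B, x i ≠ 0 := fun i hi => by
    have h1 : ratio P i b ≠ 0 := (Pool.Agent.H17R.ratio_ne_zero_iff hac).2 (Pool.Agent.H17R.coordFun_ne_zero_iff.2 (hB i hi))
    rw [hx]
    exact (map_ne_zero _).2 h1
  have hprod : ∏ i ∈ B, x i ≠ 0 := Finset.prod_ne_zero_iff.2 hxB
  set y₁ : Fin (N + 2) → F := Fin.snoc (α := fun _ => F) x (∏ i ∈ B, x i)⁻¹ with hy₁
  have hy₁c : ∀ i : Fin (N + 1), y₁ i.castSucc = x i := fun i => by rw [hy₁, Fin.snoc_castSucc]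
  have hy₁l : y₁ (Fin.last (N + 1)) = (∏ i ∈ B, x i)⁻¹ := by rw [hy₁, Fin.snoc_last]
  set y : Ph (N + 1) → F := Sum.elim y₁ fun i => D (y₁ i) with hy
  have hyl : ∀ i, y (Sum.inl i) = y₁ i := fun i => rfl
  have hyr : ∀ i, y (Sum.inr i) = D (y₁ i) := fun i => rfl
  have hren : ∀ q : MvPolynomial (Fin (N + 1)) ℂ, aeval y (rename (fun i : Fin (N + 1) => (Sum.inl i.castSucc : Ph (N + 1))) q) =
      algebraMap (FunField P) F (aeval (fun i => ratio P i b) q) := by
    intro q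
    rw [aeval_rename, ← MvPolynomial.aeval_algebraMap_apply]
    congr 1
    congr 1
    funext i
    exact hy₁c i
  have hq0 : ∀ q ∈ P, aeval (fun i => ratio P i b) q = 0 := by
    intro q hq
    rw [← sum_homogeneousComponent q, map_sum]
    refine Finset.sum_eq_zero fun n _ => ?_
    exact (Pool.Agent.H17R.gen_eq_zero_iff hac (homogeneousComponent_isHomogeneous n q)).2 (hP q hq n)
  have hx1 : x b = 1 := by
    rw [hx]
    show algebraMap (FunField P) F (ratio P b b) = 1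
    rw [Pool.Agent.H17R.ratio_self hac, map_one]
  have h5 : y (Sum.inl (Fin.last (N + 1))) * ∏ l ∈ B, y (Sum.inl l.castSucc) = 1 := by
    simp only [hyl, hy₁c, hy₁l]
    exact inv_mul_cancel₀ hprod
  refine ⟨F, inferInstance, inferInstance, D, y, fun i => rfl, ?_, ?_, ?_, h5, ?_, ?_⟩
  · have hfQ : ∀ j, f.Q j ∈ P := fun j => f.span.le (Ideal.subset_span ⟨j, rfl⟩)
    rintro (((_ | _) | (j | j)) | ((_ | u₀) | k))
    · simp only [gfamL, Sum.elim_inl, aeval_X, hyl, hy₁c, hx1, Derivation.map_one_eq_zero]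
    · simp only [gfamL, Sum.elim_inl, Sum.elim_inr, aeval_X, hyr, hy₁c, hx1, Derivation.map_one_eq_zero, map_zero]
    · simp only [gfamL, Sum.elim_inl, Sum.elim_inr]
      rw [hren, hq0 _ (hfQ j), map_zero, map_zero]
    · have h4 : aeval y (∑ i, rename (fun i : Fin (N + 1) => (Sum.inl i.castSucc : Ph (N + 1))) (pderiv i (f.Q j)) * X (Sum.inr i.castSucc)) = 0 := by
        have h := Pool.Agent.GB.der_aeval D (y ∘ fun i : Fin (N + 1) => (Sum.inl i.castSucc : Ph (N + 1))) (f.Q j)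
        rw [← aeval_rename, hren, hq0 _ (hfQ j), map_zero, map_zero] at h
        rw [map_sum, h]
        refine Finset.sum_congr rfl fun i _ => ?_
        rw [map_mul, aeval_rename, aeval_X]
        rfl
      simp only [gfamL, Sum.elim_inl, Sum.elim_inr]
      rw [h4, map_zero]
    · simp only [gfamL, Sum.elim_inl, Sum.elim_inr, map_mul, map_prod, aeval_X, h5, Derivation.map_one_eq_zero]
    · have h6 : y (Sum.inr (Fin.last (N + 1))) * ∏ l ∈ B, y (Sum.inl l.castSucc) +
          y (Sum.inl (Fin.last (N + 1))) * ∑ i ∈ B, y (Sum.inr i.castSucc) * ∏ l ∈ B.erase i, y (Sum.inl l.castSucc) = 0 := by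
        have h := congrArg D h5
        rw [Derivation.leibniz, Asm_prod, Derivation.map_one_eq_zero, smul_eq_mul, smul_eq_mul] at h
        rw [← h]
        simp only [hyr, hyl]
        ring
      have h7 : aeval y (gfamL f (Sum.inr (Sum.inl (Sum.inr u₀)))) = 0 := by
        simp only [gfamL, Sum.elim_inl, Sum.elim_inr, map_add, map_mul, map_prod, map_sum, aeval_X]
        exact h6
      rw [h7, map_zero]
    · have h8 : ∀ s, aeval y (lsub B s) = φ (tvL P B b e s) := by
        rintro (i | i)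
        · simp only [lsub, tvL, Sum.elim_inl, aeval_X, hφC, hyl, hy₁c, hx]
        · by_cases hi : i ∈ B
          · simp only [lsub, tvL, Sum.elim_inr, if_pos hi, map_mul, map_prod, aeval_X, map_sum, hφC, hyl, hyr, hy₁c, hy₁l, hDx]
            have h9 : (∏ l ∈ B, x l)⁻¹ * ∏ l ∈ B.erase i, x l = (x i)⁻¹ := by
              rw [← Finset.mul_prod_erase B x hi, mul_inv, mul_assoc, inv_mul_cancel₀, mul_one]
              exact Finset.prod_ne_zero_iff.2 fun l hl => hxB l (Finset.mem_of_mem_erase hl)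
            rw [h9, Finset.sum_mul]
            refine Finset.sum_congr rfl fun j _ => ?_
            rw [map_inv₀]
            ring
          · simp only [lsub, tvL, Sum.elim_inr, if_neg hi, aeval_X, map_sum, map_mul, hφC, hyr, hy₁c, hDx]
      have h10 : aeval y (gfamL f (Sum.inr (Sum.inr k))) = φ (psiL f P k e) := by
        show aeval y (aeval (lsub B) (f.A k)) = φ (aeval (tvL P B b e) (f.A k))
        rw [MvPolynomial.comp_aeval_apply (lsub B) (aeval y : MvPolynomial (Ph (N + 1)) ℂ →ₐ[ℂ] F), MvPolynomial.comp_aeval_apply (tvL P B b e) φ]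
        congr 1
        congr 1
        funext s
        exact h8 s
      rw [h10]
      exact hDp k
  · rw [hyl, hy₁c, hx1]
  · intro q hq
    rw [hren, hq0 q hq, map_zero]
  · intro q n hqn hq h0
    rw [hren] at h0
    exact hq ((Pool.Agent.H17R.gen_eq_zero_iff hac hqn).1 ((map_eq_zero _).1 h0))
  · by_contra hcon
    push Not at hcon
    have h1 : ∀ i j, e j (ratio P i b) = 0 := by
      intro i j
      have h2 := hcon i
      rw [hyr, hy₁c, hDx, ← map_sum] at h2
      have h2 := hφi _ h2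
      have h3 : coeff (Finsupp.single j 1) (∑ j, (X j : MvPolynomial (Fin d) (FunField P)) * C (e j (ratio P i b))) = e j (ratio P i b) := by
        rw [coeff_sum, Finset.sum_eq_single j]
        · rw [mul_comm, coeff_C_mul, coeff_X', if_pos rfl, mul_one]
        · intro i _ hi
          rw [mul_comm, coeff_C_mul, coeff_X', if_neg fun h => hi (Finsupp.single_left_injective one_ne_zero h), mul_zero]
        · intro h
          exact absurd (Finset.mem_univ j) h
      rw [← h3, h2, coeff_zero]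
    refine hei.ne_zero ⟨0, by omega⟩ (Asm_der_eq_zero (Pool.Agent.H17R.adjoin_ratio hac) ?_)
    rintro _ ⟨i, rfl⟩
    exact h1 i _

end Pool.Agent.GBL
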