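import Pool.Agent.GBL.Defs
import Pool.Agent.GG.Row

/-!
# GBL Pol: generated logarithmic symmetric differentials are in polar position

As `GB/Pol`.  (`eul B x ≠ 0` because `x ≠ 0`.)
-/

set_option autoImplicit false

open MvPolynomial
open Pool.Agent.H13.SM (conTan cone)
open Pool.Agent.GL

namespace Pool.Agent.GBL

variable {N : ℕ} {P : Ideal (MvPolynomial (Fin (N + 1)) ℂ)} {B : Finset (Fin (N + 1))} {J m : ℕ} {θ : Fin J → LogSec P B m}

/-- the polynomial of a linear form -/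
private noncomputable def lf (l : (Fin (N + 1) → ℂ) →ₗ[ℂ] ℂ) : MvPolynomial (Fin (N + 1)) ℂ := ∑ i, C (l (Pi.single i 1)) * X i

private theorem eval_lf (l : (Fin (N + 1) → ℂ) →ₗ[ℂ] ℂ) (y : Fin (N + 1) → ℂ) : eval y (lf l) = l y := by
  rw [lf, map_sum]
  conv_rhs => rw [pi_eq_sum_univ' y, map_sum]
  refine Finset.sum_congr rfl fun i _ => ?_
  rw [map_mul, eval_C, eval_X, map_smul, smul_eq_mul, mul_comm]

private theorem lf_hom (l : (Fin (N + 1) → ℂ) →ₗ[ℂ] ℂ) : (lf l).IsHomogeneous 1 := by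
  refine IsHomogeneous.sum _ _ _ fun i _ => ?_
  simpa using (isHomogeneous_C (Fin (N + 1)) (l (Pi.single i 1))).mul (isHomogeneous_X ℂ i)

theorem logPolar_of_generated (hm : 1 ≤ m) (h : LogGenerated θ) : LogPolar (m := fun _ => m) θ := by
  intro x hx v hv w hw hvx hwx
  by_contra hne
  simp only [not_exists, not_not] at hne
  obtain ⟨a, ha⟩ : ∃ a, x a ≠ 0 := by
    by_contra h0
    simp only [not_exists, not_not] at h0
    exact hx.1 (funext h0)
  have hlin : ∀ t : ℂ, act B x (v + t • w) = act B x v + t • act B x w := fun t => by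
    funext i
    simp only [act, Pi.add_apply, Pi.smul_apply, smul_eq_mul]
    split_ifs
    · ring
    · rfl
  have hT : ∀ t : ℂ, act B x (v + t • w) ∈ conTan P x := fun t => by
    rw [hlin]
    exact (conTan P x).add_mem hv ((conTan P x).smul_mem t hw)
  -- the functions are differentiable
  have hd : ∀ k, HasDerivAt (fun t : ℂ => (θ k).toFun x (v + t • w)) 0 0 := by
    intro k
    obtain ⟨e, A, hA⟩ := (θ k).regular a
    have h1 : (fun t : ℂ => (θ k).toFun x (v + t • w)) = fun t : ℂ => (x a ^ e)⁻¹ * eval (Pool.Agent.GG.pt x (v + t • w)) A := by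
      funext t
      rw [← hA x hx _ (hT t), inv_mul_cancel_left₀ (pow_ne_zero e ha)]
    have h2 : DifferentiableAt ℂ (fun t : ℂ => (θ k).toFun x (v + t • w)) 0 := by
      rw [h1]
      exact ((Pool.Agent.GG.hasDerivAt_evalV A x v w).differentiableAt).const_mul _
    have h3 := h2.hasDerivAt
    rwa [hne k] at h3
  -- every admissible polynomial has derivative `0`
  have key : ∀ G : MvPolynomial (Fin (N + 1)) ℂ, G.IsHomogeneous m → (∀ (u : Fin (N + 1) → ℂ) (a : ℂ), eval (u + a • eul B x) G = eval u G) →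
      HasDerivAt (fun t : ℂ => eval (v + t • w) G) 0 0 := by
    intro G hG hinv
    obtain ⟨c, hc⟩ := h x hx G hG hinv
    have h1 : (fun t : ℂ => eval (v + t • w) G) = fun t : ℂ => ∑ k, c k * (θ k).toFun x (v + t • w) := by
      funext t
      exact hc (v + t • w) (hT t)
    rw [h1]
    have h3 : ∀ k ∈ (Finset.univ : Finset (Fin J)), HasDerivAt (fun t : ℂ => c k * (θ k).toFun x (v + t • w)) (c k * 0) 0 :=
      fun k _ => (hd k).const_mul (c k)
    have h4 := HasDerivAt.fun_sum h3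
    have h5 : (∑ k : Fin J, c k * (0 : ℂ)) = 0 := Finset.sum_eq_zero fun k _ => mul_zero _
    rw [h5] at h4
    exact h4
  -- the product of two linear forms
  have main : ∀ l₁ l₂ : (Fin (N + 1) → ℂ) →ₗ[ℂ] ℂ, l₁ (eul B x) = 0 → l₂ (eul B x) = 0 →
      HasDerivAt (fun t : ℂ => (l₁ v + t * l₁ w) ^ (m - 1) * (l₂ v + t * l₂ w)) 0 0 := by
    intro l₁ l₂ h1 h2
    have h3 := key (lf l₁ ^ (m - 1) * lf l₂) (by
      have h4 := ((lf_hom l₁).pow (m - 1)).mul (lf_hom l₂)
      rwa [one_mul, Nat.sub_add_cancel hm] at h4) (fun u a => by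
        rw [map_mul, map_pow, map_mul, map_pow, eval_lf, eval_lf, eval_lf, eval_lf, map_add, map_add, map_smul, map_smul, h1, h2,
          smul_zero, add_zero, add_zero])
    have h5 : (fun t : ℂ => eval (v + t • w) (lf l₁ ^ (m - 1) * lf l₂)) = fun t : ℂ => (l₁ v + t * l₁ w) ^ (m - 1) * (l₂ v + t * l₂ w) := by
      funext t
      rw [map_mul, map_pow, eval_lf, eval_lf, map_add, map_add, map_smul, map_smul, smul_eq_mul, smul_eq_mul]
    rwa [h5] at h3
  have lin : ∀ l : (Fin (N + 1) → ℂ) →ₗ[ℂ] ℂ, HasDerivAt (fun t : ℂ => l v + t * l w) (l w) 0 := fun l => by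
    simpa using ((hasDerivAt_id (0 : ℂ)).mul_const (l w)).const_add (l v)
  -- a linear form which kills a subspace
  have ex : ∀ (p : Submodule ℂ (Fin (N + 1) → ℂ)) (u : Fin (N + 1) → ℂ), u ∉ p → ∃ l : (Fin (N + 1) → ℂ) →ₗ[ℂ] ℂ, l u ≠ 0 ∧ ∀ y ∈ p, l y = 0 := by
    intro p u hu
    obtain ⟨l, h1, h2⟩ := Submodule.exists_dual_map_eq_bot_of_notMem hu inferInstance
    refine ⟨l, h1, fun y hy => ?_⟩
    have h3 : l y ∈ p.map l := Submodule.mem_map_of_mem hy
    rw [h2] at h3
    exact (Submodule.mem_bot ℂ).1 h3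
  obtain ⟨l₁, h1v, h1x⟩ := ex _ v hvx
  have h1x' : l₁ (eul B x) = 0 := h1x (eul B x) (Submodule.mem_span_singleton_self _)
  by_cases hsp : w ∈ Submodule.span ℂ {eul B x, v}
  · obtain ⟨b, c, hbc⟩ := Submodule.mem_span_pair.1 hsp
    have hc : c ≠ 0 := by
      rintro rfl
      rw [zero_smul, add_zero] at hbc
      exact hwx (Submodule.mem_span_singleton.2 ⟨b, hbc⟩)
    have hw1 : l₁ w = c * l₁ v := by
      rw [← hbc, map_add, map_smul, map_smul, h1x', smul_zero, zero_add, smul_eq_mul]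
    have h2 := main l₁ l₁ h1x' h1x'
    have h3 : (fun t : ℂ => (l₁ v + t * l₁ w) ^ (m - 1) * (l₁ v + t * l₁ w)) = fun t : ℂ => (l₁ v + t * l₁ w) ^ m := by
      funext t
      rw [← pow_succ, Nat.sub_add_cancel hm]
    rw [h3] at h2
    have h4 := ((lin l₁).fun_pow m).unique h2
    rw [zero_mul, add_zero, hw1] at h4
    have h5 : (m : ℂ) * l₁ v ^ (m - 1) * (c * l₁ v) ≠ 0 :=
      mul_ne_zero (mul_ne_zero (by exact_mod_cast (by omega : m ≠ 0)) (pow_ne_zero _ h1v)) (mul_ne_zero hc h1v)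
    exact h5 h4
  · obtain ⟨l₂, h2w, h2⟩ := ex _ w hsp
    have h2x : l₂ (eul B x) = 0 := h2 (eul B x) (Submodule.subset_span (by simp))
    have h2v : l₂ v = 0 := h2 v (Submodule.subset_span (by simp))
    have h3 := main l₁ l₂ h1x' h2x
    have h4 := (((lin l₁).fun_pow (m - 1)).mul (lin l₂)).unique h3
    simp only [zero_mul, add_zero, h2v, mul_zero, zero_add] at h4
    exact (mul_ne_zero (pow_ne_zero _ h1v) h2w) h4

end Pool.Agent.GBL
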