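import Pool.Agent.GB.Trf
import Pool.Agent.GL.Row
import Pool.Agent.GL.ChB

/-!
# GBL Vd: some minor is not zero

As `GB/Vd`, with `GL.exists_rowL`: a complex point `w` with these equations is `ePt B x v`, `x ∈ Uc P B b`, `v ∈ Tc P b x` (`GL.of_gval`).
-/

set_option autoImplicit false

open MvPolynomial
open Pool.Agent.H62.FC (Homog)
open Pool.Agent.GL

namespace Pool.Agent.GBL

open Pool.Agent.GG

variable {N : ℕ} {P : Ideal (MvPolynomial (Fin (N + 1)) ℂ)} {B : Finset (Fin (N + 1))} {J : ℕ} {m : Fin J → ℕ} {θ : ∀ k, LogSec P B (m k)} {b : Fin (N + 1)}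

theorem exists_vdetL_ne (hpol : LogPolar θ) (f : LFrame θ b) (hb : b ∈ B) {F : Type} [Field F] [Algebra ℂ F] {y : Ph (N + 1) → F}
    (h1 : y (Sum.inl b.castSucc) = 1) (h2 : y (Sum.inr b.castSucc) = 0)
    (h3 : ∀ q ∈ P, aeval y (rename (fun i : Fin (N + 1) => (Sum.inl i.castSucc : Ph (N + 1))) q) = 0)
    (h4 : ∀ q ∈ P, aeval y (∑ i, rename (fun i : Fin (N + 1) => (Sum.inl i.castSucc : Ph (N + 1))) (pderiv i q) * X (Sum.inr i.castSucc)) = 0)
    (h5 : y (Sum.inl (Fin.last (N + 1))) * ∏ l ∈ B, y (Sum.inl l.castSucc) = 1)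
    (h6 : y (Sum.inr (Fin.last (N + 1))) * ∏ l ∈ B, y (Sum.inl l.castSucc) +
      y (Sum.inl (Fin.last (N + 1))) * ∑ i ∈ B, y (Sum.inr i.castSucc) * ∏ l ∈ B.erase i, y (Sum.inl l.castSucc) = 0)
    (h7 : ∃ i : Fin (N + 1), y (Sum.inr i.castSucc) ≠ 0) :
    ∃ K : Fin (N + 2) → GIx f.q J, aeval y (vdet (gfamL f) K) ≠ 0 := by
  by_contra hne
  obtain ⟨i₀, hi₀⟩ := h7
  apply hi₀
  -- the equations of the tangent vectors with vanishing minors
  let S : Set (MvPolynomial (Ph (N + 1)) ℂ) := {s | s = X (Sum.inl b.castSucc) - 1 ∨ s = X (Sum.inr b.castSucc) ∨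
    (∃ q ∈ P, s = rename (fun i : Fin (N + 1) => (Sum.inl i.castSucc : Ph (N + 1))) q) ∨
    (∃ q ∈ P, s = ∑ i, rename (fun i : Fin (N + 1) => (Sum.inl i.castSucc : Ph (N + 1))) (pderiv i q) * X (Sum.inr i.castSucc)) ∨
    s = X (Sum.inl (Fin.last (N + 1))) * ∏ l ∈ B, X (Sum.inl l.castSucc) - 1 ∨
    s = X (Sum.inr (Fin.last (N + 1))) * ∏ l ∈ B, X (Sum.inl l.castSucc) +
      X (Sum.inl (Fin.last (N + 1))) * ∑ i ∈ B, X (Sum.inr i.castSucc) * ∏ l ∈ B.erase i, X (Sum.inl l.castSucc) ∨ ∃ K, s = vdet (gfamL f) K}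
  have hQ : ∀ j, f.Q j ∈ P := fun j => by
    have h1 : f.Q j ∈ Ideal.span (Set.range f.Q) := Ideal.subset_span ⟨j, rfl⟩
    rwa [f.span] at h1
  have hC : ∀ z : Ph (N + 1) → ℂ, (∀ s ∈ S, eval z s = 0) → eval z (X (Sum.inr i₀.castSucc) : MvPolynomial (Ph (N + 1)) ℂ) = 0 := by
    intro z hz
    have e1 : eval z (X (Sum.inl b.castSucc) : MvPolynomial (Ph (N + 1)) ℂ) = 1 := by
      have h := hz _ (Or.inl rfl)
      rw [map_sub, map_one, sub_eq_zero] at h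
      exact h
    have e2 := hz _ (Or.inr (Or.inl rfl))
    have e3 : ∀ q ∈ P, eval z (rename (fun i : Fin (N + 1) => (Sum.inl i.castSucc : Ph (N + 1))) q) = 0 := fun q hq =>
      hz _ (Or.inr (Or.inr (Or.inl ⟨q, hq, rfl⟩)))
    have e4 : ∀ q ∈ P, eval z (∑ i, rename (fun i : Fin (N + 1) => (Sum.inl i.castSucc : Ph (N + 1))) (pderiv i q) * X (Sum.inr i.castSucc)) = 0 := fun q hq =>
      hz _ (Or.inr (Or.inr (Or.inr (Or.inl ⟨q, hq, rfl⟩))))
    have e5 : eval z (X (Sum.inl (Fin.last (N + 1))) * ∏ l ∈ B, X (Sum.inl l.castSucc) : MvPolynomial (Ph (N + 1)) ℂ) = 1 := by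
      have h := hz _ (Or.inr (Or.inr (Or.inr (Or.inr (Or.inl rfl)))))
      rw [map_sub, map_one, sub_eq_zero] at h
      exact h
    have e6 := hz _ (Or.inr (Or.inr (Or.inr (Or.inr (Or.inr (Or.inl rfl))))))
    have e7 : ∀ K, eval z (vdet (gfamL f) K) = 0 := fun K => hz _ (Or.inr (Or.inr (Or.inr (Or.inr (Or.inr (Or.inr ⟨K, rfl⟩))))))
    obtain ⟨x, v, hxv, hx, hv, -⟩ := of_gval f (c := fun k => eval z (gfamL f (Sum.inr (Sum.inr k)))) (y := z) (by
      rintro (((l | l) | (j | j)) | ((l | l) | k))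
      · exact e1
      · exact e2
      · exact e3 _ (hQ j)
      · exact e4 _ (hQ j)
      · exact e5
      · exact e6
      · rfl)
    rw [eval_X]
    by_contra hzb
    have hv0 : v ≠ 0 := fun h0 => hzb (by
      rw [hxv, h0]
      simp [ePt, embV])
    obtain ⟨K, hK⟩ := exists_rowL hpol f hb hx hv hv0
    rw [← hxv] at hK
    exact hK (e7 K)
  have h := Pool.Agent.GB.transfer hC y (by
    rintro s (rfl | rfl | ⟨q, hq, rfl⟩ | ⟨q, hq, rfl⟩ | rfl | rfl | ⟨K, rfl⟩)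
    · rw [map_sub, aeval_X, h1, map_one, sub_self]
    · rw [aeval_X, h2]
    · exact h3 q hq
    · exact h4 q hq
    · simp only [map_sub, map_mul, map_prod, aeval_X, map_one, h5, sub_self]
    · simp only [map_add, map_sum, map_mul, map_prod, aeval_X, h6]
    · by_contra hK
      exact hne ⟨K, hK⟩)
  rwa [aeval_X] at h

end Pool.Agent.GBL
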