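import Pool.Agent.GB.Trf
import Pool.Agent.GB.Pt
import Pool.Agent.GL.ChB
import Pool.Agent.GBL.Asm
import Pool.Agent.GBL.Pol
import Pool.Agent.GBL.Vd

/-!
# GBL Fin: Theorem B, logarithmic case, algebraic form

As `GB/Fin`.
-/

set_option autoImplicit false

open MvPolynomial
open Pool.Agent.H17LG.Variety (FunField ratio IsLogGeneralType)
open Pool.Agent.H62.FC (Homog)
open Pool.Agent.GL

namespace Pool.Agent.GBL

open Pool.Agent.GG

variable {N : ℕ} {P : Ideal (MvPolynomial (Fin (N + 1)) ℂ)} {B : Finset (Fin (N + 1))} {J m : ℕ} {θ : Fin J → LogSec P B m} {b : Fin (N + 1)}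

private theorem Fin_prod {F : Type} [Field F] [Algebra ℂ F] (D : Derivation ℂ F F) {ι : Type} [DecidableEq ι] (x : ι → F) (s : Finset ι) :
    D (∏ l ∈ s, x l) = ∑ i ∈ s, D (x i) * ∏ l ∈ s.erase i, x l := by
  induction s using Finset.induction_on with
  | empty => simp
  | insert a s ha ih =>
    rw [Finset.prod_insert ha, Derivation.leibniz, ih, Finset.sum_insert ha, Finset.erase_insert ha, smul_eq_mul, smul_eq_mul, Finset.mul_sum, add_comm,
      mul_comm (∏ l ∈ s, x l)]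
    congr 1
    refine Finset.sum_congr rfl fun i hi => ?_
    have h1 : (insert a s).erase i = insert a (s.erase i) := Finset.erase_insert_of_ne fun h => ha (h ▸ hi)
    rw [h1, Finset.prod_insert (fun h => ha (Finset.mem_of_mem_erase h))]
    ring

/-- **Theorem B**, logarithmic case. -/
theorem exists_critL [P.IsPrime] (hP : Homog P) (hm : 1 ≤ m) (hgen : LogGenerated θ) (f : LFrame (m := fun _ => m) θ b) (hb : b ∈ B)
    (hB : ∀ i ∈ B, X i ∉ P) {k : ℕ} (hk : 1 ≤ k) (hz : ∃ z : Fin k → FunField P, IsTranscendenceBasis ℂ z)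
    (hn : ¬ IsLogGeneralType (K := FunField P) (k := k) (BdB P B)) {q : MvPolynomial (Fin (N + 1)) ℂ} {n : ℕ} (hq : q.IsHomogeneous n) (hqP : q ∉ P) :
    ∃ (K : Fin (N + 2) → GIx f.q J) (x v : Fin (N + 1) → ℂ), x ∈ Uc P B b ∧ v ∈ Tc P b x ∧ v ≠ 0 ∧ eval x q ≠ 0 ∧ Crit (gfamL f) K (ePt B x v) := by
  classical
  obtain ⟨z, hz⟩ := hz
  obtain ⟨F, _, _, D, y, hx, hG, h1, h3, h5, hq0, i, hi⟩ := exists_field_pointL hP hm hgen f hb hB hk hz hn
  set r : Fin (N + 1) → Ph (N + 1) := fun i => Sum.inl i.castSucc with hr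
  have h2 : y (Sum.inr b.castSucc) = 0 := by
    rw [← hx, h1, Derivation.map_one_eq_zero]
  have h4 : ∀ q ∈ P, aeval y (∑ i, rename r (pderiv i q) * X (Sum.inr i.castSucc)) = 0 := by
    intro p hp
    have h := h3 p hp
    rw [aeval_rename] at h
    have h' := Pool.Agent.GB.der_aeval D (y ∘ r) p
    rw [h, map_zero] at h'
    rw [map_sum, h']
    refine Finset.sum_congr rfl fun i _ => ?_
    rw [map_mul, aeval_rename, aeval_X]
    congr 1
    exact (hx i.castSucc).symm
  have h6 : y (Sum.inr (Fin.last (N + 1))) * ∏ l ∈ B, y (Sum.inl l.castSucc) +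
      y (Sum.inl (Fin.last (N + 1))) * ∑ i ∈ B, y (Sum.inr i.castSucc) * ∏ l ∈ B.erase i, y (Sum.inl l.castSucc) = 0 := by
    have h := congrArg D h5
    rw [Derivation.leibniz, Fin_prod, Derivation.map_one_eq_zero, hx, smul_eq_mul, smul_eq_mul] at h
    simp only [hx] at h
    rw [← h]
    ring
  obtain ⟨K, hK⟩ := exists_vdetL_ne (F := F) (logPolar_of_generated hm hgen) f hb h1 h2 h3 h4 h5 h6 ⟨i, hi⟩
  have hfQ : ∀ j, f.Q j ∈ P := fun j => f.span.le (Ideal.subset_span ⟨j, rfl⟩)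
  -- the values of the family
  set S : Set (MvPolynomial (Ph (N + 1)) ℂ) := {s | ∃ l, s = gfamL f (Sum.inl l) - C (gval (J := J) 0 (Sum.inl l))} ∪
    ({s | ∃ l, s = gfamL f (Sum.inr (Sum.inl l)) - C (gval (q := f.q) (J := J) 0 (Sum.inr (Sum.inl l)))} ∪
      {s | ∃ l n, s = (⇑(Dt (gfamL f) K))^[n + 1] (gfamL f l)}) with hS
  have hyS : ∀ s ∈ S, aeval y s = 0 := by
    rintro s (⟨((_ | _) | (j | j)), rfl⟩ | (⟨(_ | _), rfl⟩ | ⟨l, n, rfl⟩))
    · simp only [gfamL, gval, Sum.elim_inl, map_sub, aeval_X, h1, map_one, sub_self]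
    · simp only [gfamL, gval, Sum.elim_inl, Sum.elim_inr, map_sub, aeval_X, h2, map_zero, sub_self]
    · simp only [gfamL, gval, Sum.elim_inl, Sum.elim_inr, map_sub, map_zero, sub_zero]
      exact h3 _ (hfQ j)
    · simp only [gfamL, gval, Sum.elim_inl, Sum.elim_inr, map_sub, map_zero, sub_zero]
      exact h4 _ (hfQ j)
    · simp only [gfamL, gval, Sum.elim_inl, Sum.elim_inr, map_sub, map_one, map_mul, map_prod, aeval_X, h5, sub_self]
    · simp only [gfamL, gval, Sum.elim_inl, Sum.elim_inr, map_sub, map_zero, sub_zero, map_add, map_mul, map_prod, map_sum, aeval_X]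
      exact h6
    · exact Pool.Agent.GB.aeval_iter (gfamL f) K D hx hG l n
  have hyG : aeval y (vdet (gfamL f) K * (rename r q * X (Sum.inr i.castSucc))) ≠ 0 := by
    rw [map_mul, map_mul, aeval_X]
    exact mul_ne_zero hK (mul_ne_zero (hq0 q n hq hqP) hi)
  by_contra hcon
  refine hyG (Pool.Agent.GB.transfer (S := S) ?_ y hyS)
  intro w hw
  by_contra hne
  rw [map_mul, map_mul, eval_X] at hne
  obtain ⟨x, v, e1, e2, e3, -⟩ := of_gval f (c := fun k => eval w (gfamL f (Sum.inr (Sum.inr k)))) (y := w) (by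
    rintro (l | (l | l))
    · have h := hw _ (Or.inl ⟨l, rfl⟩)
      rw [map_sub, eval_C, sub_eq_zero] at h
      rw [h]
      rcases l with ((_ | _) | (_ | _)) <;> rfl
    · have h := hw _ (Or.inr (Or.inl ⟨l, rfl⟩))
      rw [map_sub, eval_C, sub_eq_zero] at h
      rw [h]
      rcases l with (_ | _) <;> rfl
    · rfl)
  have hxw : ∀ j : Fin (N + 1), w (Sum.inl j.castSucc) = x j := fun j => by
    rw [e1]
    simp only [ePt, emb, Sum.elim_inl, Fin.snoc_castSucc]
  have hvw : ∀ j : Fin (N + 1), w (Sum.inr j.castSucc) = v j := fun j => by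
    rw [e1]
    simp only [ePt, embV, Sum.elim_inr, Fin.snoc_castSucc]
  refine hcon ⟨K, x, v, e2, e3, fun h => right_ne_zero_of_mul (right_ne_zero_of_mul hne) (by rw [hvw, h]; rfl), ?_, ?_, ?_⟩
  · intro h
    apply left_ne_zero_of_mul (right_ne_zero_of_mul hne)
    rw [eval_rename, ← h]
    congr 1
    congr 1
    funext j
    exact hxw j
  · rw [← e1]
    exact left_ne_zero_of_mul hne
  · intro l n
    rw [← e1]
    exact hw _ (Or.inr (Or.inr ⟨l, n, rfl⟩))

end Pool.Agent.GBL
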