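import Pool.Agent.GBL.Fin
import Pool.Agent.GL.Ent1
import Pool.Agent.GL.Conc
import Pool.Agent.H17BP.Final

/-!
# GBL Use: Theorem B, logarithmic case, for entire curves

PROOF.  `exists_critL`, `GL.exists_entire_of_crit`.  `bdB_iff`: the set of the prime divisors on the boundary is the one of the hand-ins, for the forms `x i`, `i ∈ B`, and `1`.
-/

set_option autoImplicit false

open MvPolynomial Topology Filter Metric
open Pool.Agent.H13.SM (conTan cone)
open Pool.Agent.H17 (PN HolomorphicInto VanishesAt)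
open Pool.Agent.H17BP (vanishesAt_mk)
open Pool.Agent.H17EF (projVar)
open Pool.Agent.H17LG.Variety (FunField ratio IsLogGeneralType OnBoundary)
open Pool.Agent.H23.Fano (PrimeDivisorOver Form)
open Pool.Agent.H62.FC (Homog)
open Pool.Agent.GL

namespace Pool.Agent.GBL

open Pool.Agent.GG

variable {N : ℕ} {P : Ideal (MvPolynomial (Fin (N + 1)) ℂ)} {B : Finset (Fin (N + 1))}

theorem bdB_iff [P.IsPrime] {k : ℕ} (E : PrimeDivisorOver (FunField P) k) :
    BdB P B E ↔ OnBoundary P (fun i : Fin (N + 1) => if i ∈ B then X i else 1) E := by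
  unfold BdB OnBoundary
  refine exists_congr fun j => and_congr_right fun _ => and_congr_right fun _ => exists_congr fun i => ?_
  by_cases hi : i ∈ B
  · simp only [hi, if_true, aeval_X, true_and]
  · simp only [hi, if_false, false_and, map_one, false_iff, not_lt]
    exact (E.ord.map_one).le

theorem bdB_eq [P.IsPrime] (k : ℕ) : BdB P B (k := k) = OnBoundary P (fun i : Fin (N + 1) => if i ∈ B then X i else 1) (k := k) :=
  funext fun E => propext (bdB_iff E)

variable {J m : ℕ} {θ : Fin J → LogSec P B m}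

/-- **Theorem B**, logarithmic case, for entire curves: if `U = X \ D`, of dimension `k ≥ 1`, is not of log general type, and `q` is a form which is not zero on `X`, then there is a nonconstant entire curve in `U`,
which is not in the zero set of `q`; it has bounded logarithmic derivatives. -/
theorem exists_entireL [P.IsPrime] (hP : Homog P) (hm : 1 ≤ m) (hgen : LogGenerated θ) {b : Fin (N + 1)} (hb : b ∈ B) (hB : ∀ i ∈ B, X i ∉ P) {k : ℕ} (hk : 1 ≤ k)
    (hz : ∃ z : Fin k → FunField P, IsTranscendenceBasis ℂ z)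
    (hn : ¬ IsLogGeneralType (K := FunField P) (k := k) (OnBoundary P (fun i : Fin (N + 1) => if i ∈ B then X i else 1)))
    {q : MvPolynomial (Fin (N + 1)) ℂ} {n : ℕ} (hq : q.IsHomogeneous n) (hqP : q ∉ P) :
    ∃ F : ℂ → Fin (N + 1) → ℂ, (∀ z, AnalyticAt ℂ F z) ∧ (∀ z, F z ∈ Uc P B b) ∧ eval (F 0) q ≠ 0 ∧ deriv F 0 ≠ 0 ∧
      (∃ c : Fin J → ℂ, c ≠ 0 ∧ ∀ z, thv (m := fun _ => m) θ (F z) (deriv F z) = c) ∧ ∃ C : ℝ, ∀ z, Rho B (F z) ≤ C * (1 + ‖z‖) := by
  obtain ⟨f⟩ := exists_lframe (m := fun _ => m) θ b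
  rw [← bdB_eq] at hn
  obtain ⟨K, x, v, hx, hv, hv0, hxq, hcr⟩ := exists_critL hP hm hgen f hb hB hk hz hn hq hqP
  obtain ⟨F, h1, h2, h3, h4, h5, h6⟩ := exists_entire_of_crit hP (logPolar_of_generated hm hgen) (fun _ => hm) hb f hx hv hv0 hcr
  exact ⟨F, h1, h2, by rw [h3]; exact hxq, by rw [h4]; exact hv0, h5, h6⟩

/-- the same for maps to the projective space -/
theorem exists_entire_PN [P.IsPrime] (hP : Homog P) (hm : 1 ≤ m) (hgen : LogGenerated θ) {b : Fin (N + 1)} (hb : b ∈ B) (hB : ∀ i ∈ B, X i ∉ P) {k : ℕ} (hk : 1 ≤ k)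
    (hz : ∃ z : Fin k → FunField P, IsTranscendenceBasis ℂ z)
    (hn : ¬ IsLogGeneralType (K := FunField P) (k := k) (OnBoundary P (fun i : Fin (N + 1) => if i ∈ B then X i else 1)))
    {q : MvPolynomial (Fin (N + 1)) ℂ} {n : ℕ} (hq : q.IsHomogeneous n) (hqP : q ∉ P) :
    ∃ g : ℂ → PN N, HolomorphicInto g Set.univ ∧ (∀ z, g z ∈ openPart P B) ∧ (∃ z w, g z ≠ g w) ∧ ¬ VanishesAt q (g 0) := by
  obtain ⟨F, h1, h2, h3, h4, -, -⟩ := exists_entireL hP hm hgen hb hB hk hz hn hq hqP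
  have h0 : ∀ z, F z ≠ 0 := fun z => (h2 z).1.1
  refine ⟨fun z => Projectivization.mk ℂ (F z) (h0 z), fun z _ => ⟨F, h1 z, Filter.Eventually.of_forall fun w => ⟨h0 w, rfl⟩⟩, fun z => ⟨fun p hp n hn => ?_, fun i hi => ?_⟩, ?_, ?_⟩
  · rw [vanishesAt_mk hn (h0 z)]
    exact (h2 z).1.2 p hp
  · rw [vanishesAt_mk (isHomogeneous_X ℂ i) (h0 z), eval_X]
    exact (h2 z).2.2 i hi
  · by_contra hcon
    push Not at hcon
    apply h4
    have hF : ∀ z, F z = F 0 := by
      intro z
      obtain ⟨a, ha⟩ := (Projectivization.mk_eq_mk_iff' ℂ _ _ (h0 z) (h0 0)).1 (hcon z 0)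
      have e1 := congrFun ha b
      rw [Pi.smul_apply, (h2 z).2.1, (h2 0).2.1, smul_eq_mul, mul_one] at e1
      rw [← ha, e1, one_smul]
    have : F = fun _ => F 0 := funext hF
    rw [this]
    exact deriv_const _ _
  · rw [vanishesAt_mk hq (h0 0)]
    exact h3

end Pool.Agent.GBL
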